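import Pool.Agent.KS6_23.LP.LP9

set_option autoImplicit false

open MeasureTheory Set ProbabilityTheory
open scoped Topology ENNReal NNReal

namespace Pool.Agent.KS6_23.LP

/-- the `n`-th diameter of a set -/
noncomputable def diamN (E : Set ℂ) (n : ℕ) : ℝ :=
  sSup {r | ∃ z : Fin n → ℂ, (∀ i, z i ∈ E) ∧
    r = (∏ i, ∏ j ∈ Finset.Ioi i, ‖z i - z j‖) ^ (2 / ((n : ℝ) * (n - 1)))}

/-- the pair law under the product measure -/
lemma pair_law {ν : Measure ℂ} [IsProbabilityMeasure ν] {n : ℕ} {i j : Fin n} (hij : i ≠ j) :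
    MeasurePreserving (fun z : Fin n → ℂ => (z i, z j)) (Measure.pi (fun _ => ν)) (ν.prod ν) := by
  refine ⟨by fun_prop, ?_⟩
  have h := (iIndepFun_pi (μ := fun _ : Fin n => ν) (X := fun _ => id) (fun _ => aemeasurable_id)).indepFun hij
  simp only [id] at h
  rw [indepFun_iff_map_prod_eq_prod_map_map (measurable_pi_apply i).aemeasurable
    (measurable_pi_apply j).aemeasurable] at h
  rw [h, (measurePreserving_eval (fun _ : Fin n => ν) i).map_eq, (measurePreserving_eval (fun _ : Fin n => ν) j).map_eq]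

lemma card_pairs (n : ℕ) : ((∑ i : Fin n, (Finset.Ioi i).card : ℕ) : ℝ) = (n : ℝ) * (n - 1) / 2 := by
  have h : ∀ n : ℕ, ∑ i : Fin n, (Finset.Ioi i).card = ∑ i ∈ Finset.range n, i := by
    intro n
    rw [Finset.sum_congr rfl (fun i _ => Fin.card_Ioi i), Fin.sum_univ_eq_sum_range (fun i => n - 1 - i) n]
    exact Finset.sum_range_reflect (fun i => i) n
  rw [h, Finset.sum_range_id]
  have h2 : (n * (n - 1)) % 2 = 0 := by
    have := Nat.even_mul_pred_self n
    exact Nat.even_iff.mp this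
  rw [Nat.cast_div (Nat.dvd_of_mod_eq_zero h2) two_ne_zero]
  rcases n with _ | n
  · simp
  · push_cast
    simp

lemma sup_bound {E : Set ℂ} {R : ℝ} (hE : E ⊆ Metric.closedBall 0 R) (n : ℕ) :
    BddAbove {r | ∃ z : Fin n → ℂ, (∀ i, z i ∈ E) ∧
      r = (∏ i, ∏ j ∈ Finset.Ioi i, ‖z i - z j‖) ^ (2 / ((n : ℝ) * (n - 1)))} := by
  refine ⟨(∏ i : Fin n, ∏ j ∈ Finset.Ioi i, (2 * |R|)) ^ (2 / ((n : ℝ) * (n - 1))), ?_⟩
  rintro r ⟨z, hz, rfl⟩
  apply Real.rpow_le_rpow
  · exact Finset.prod_nonneg fun i _ => Finset.prod_nonneg fun j _ => norm_nonneg _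
  · apply Finset.prod_le_prod
    · exact fun i _ => Finset.prod_nonneg fun j _ => norm_nonneg _
    · intro i _
      apply Finset.prod_le_prod
      · exact fun j _ => norm_nonneg _
      · intro j _
        have h1 := hE (hz i)
        have h2 := hE (hz j)
        rw [Metric.mem_closedBall, dist_zero_right] at h1 h2
        have := le_abs_self R
        exact (norm_sub_le _ _).trans (by linarith)
  · rcases n with _ | n
    · simp
    · push_cast
      simp only [add_sub_cancel_right]
      positivity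

/-- lower bound for the `n`-th diameter by the energy of a probability density -/
theorem diamN_ge {A : Set ℂ} {R : ℝ} (hR : 0 < R) (hAR : A ⊆ Metric.ball 0 R)
    {w : ℂ → ℝ} (hw : Nice R w) (hwm : Measurable w) (hw0 : ∀ x, 0 ≤ w x) (hwA : ∀ x ∉ A, w x = 0)
    (hA : MeasurableSet A)
    (hw1 : ∫ x, w x = 1) {n : ℕ} (hn : 2 ≤ n) : Real.exp (-bf w w) ≤ diamN A n := by
  set f : ℂ → ℝ≥0∞ := fun x => ENNReal.ofReal (w x) with hf
  have hfm : Measurable f := hwm.ennreal_ofReal
  have hft : ∀ x, f x < ⊤ := fun x => ENNReal.ofReal_lt_top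
  have hfr : ∀ x, (f x).toReal = w x := fun x => ENNReal.toReal_ofReal (hw0 x)
  set ν : Measure ℂ := volume.withDensity f with hν
  have hprob : IsProbabilityMeasure ν := by
    constructor
    rw [hν, withDensity_apply _ MeasurableSet.univ, Measure.restrict_univ]
    rw [hf, ← ofReal_integral_eq_lintegral_ofReal hw.integrable (Filter.Eventually.of_forall hw0), hw1]
    simp
  have hνA : ν Aᶜ = 0 := by
    rw [hν, withDensity_apply _ hA.compl, setLIntegral_eq_zero_iff hA.compl hfm]
    apply Filter.Eventually.of_forall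
    intro x hx
    simp only [hf]
    rw [hwA x hx]; simp
  have hprod : ν.prod ν = (volume.prod volume).withDensity (fun p => f p.1 * f p.2) :=
    prod_withDensity hfm hfm
  have hfpm : Measurable (fun p : ℂ × ℂ => f p.1 * f p.2) := by fun_prop
  have hfpt : ∀ᵐ p : ℂ × ℂ ∂(volume.prod volume), f p.1 * f p.2 < ⊤ :=
    Filter.Eventually.of_forall fun p => ENNReal.mul_lt_top (hft _) (hft _)
  have hint : Integrable (fun p : ℂ × ℂ => Real.log ‖p.1 - p.2‖) (ν.prod ν) := by
    rw [hprod, integrable_withDensity_iff_integrable_smul' hfpm hfpt]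
    refine (hw.int_prod hR hw).neg.congr (Filter.Eventually.of_forall fun p => ?_)
    simp only [Pi.neg_apply, lk, ENNReal.toReal_mul, hfr, smul_eq_mul]
    ring
  have hval : ∫ p : ℂ × ℂ, Real.log ‖p.1 - p.2‖ ∂(ν.prod ν) = -bf w w := by
    rw [hprod, integral_withDensity_eq_integral_toReal_smul hfpm hfpt, hw.bf_prod hR hw, ← integral_neg]
    congr 1
    ext p
    simp only [lk, ENNReal.toReal_mul, hfr, smul_eq_mul]
    ring
  set F : (Fin n → ℂ) → ℝ := fun z => ∑ i, ∑ j ∈ Finset.Ioi i, Real.log ‖z i - z j‖ with hF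
  have hpair : ∀ i : Fin n, ∀ j ∈ Finset.Ioi i,
      Integrable (fun z : Fin n → ℂ => Real.log ‖z i - z j‖) (Measure.pi (fun _ => ν)) ∧
      ∫ z : Fin n → ℂ, Real.log ‖z i - z j‖ ∂(Measure.pi (fun _ => ν)) = -bf w w := by
    intro i j hj
    have hij : i ≠ j := (Finset.mem_Ioi.mp hj).ne
    have hl := pair_law (ν := ν) hij
    constructor
    · exact hl.integrable_comp_of_integrable hint
    · rw [← hval, ← hl.map_eq, integral_map hl.measurable.aemeasurable]
      rw [hl.map_eq]
      exact hint.1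
  have hFi : Integrable F (Measure.pi (fun _ => ν)) := by
    apply integrable_finsetSum
    intro i _
    apply integrable_finsetSum
    intro j hj
    exact (hpair i j hj).1
  have hFv : ∫ z, F z ∂(Measure.pi (fun _ => ν)) = ((n : ℝ) * (n - 1) / 2) * (-bf w w) := by
    simp only [hF]
    rw [integral_finsetSum _ (fun i _ => integrable_finsetSum _ fun j hj => (hpair i j hj).1)]
    have : ∀ i : Fin n, ∫ z : Fin n → ℂ, (∑ j ∈ Finset.Ioi i, Real.log ‖z i - z j‖) ∂(Measure.pi (fun _ => ν))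
        = ((Finset.Ioi i).card : ℝ) * (-bf w w) := by
      intro i
      rw [integral_finsetSum _ fun j hj => (hpair i j hj).1, Finset.sum_congr rfl fun j hj => (hpair i j hj).2,
        Finset.sum_const, nsmul_eq_mul]
    rw [Finset.sum_congr rfl fun i _ => this i, ← Finset.sum_mul, ← card_pairs n]
    push_cast
    rfl
  -- the null set
  have hae : ∀ᵐ z : Fin n → ℂ ∂(Measure.pi (fun _ => ν)), (∀ i, z i ∈ A) ∧
      ∀ i, ∀ j ∈ Finset.Ioi i, z i ≠ z j := by
    have h1 : ∀ i : Fin n, ∀ᵐ z : Fin n → ℂ ∂(Measure.pi (fun _ => ν)), z i ∈ A := by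
      intro i
      have : ∀ᵐ x ∂ν, x ∈ A := by rw [ae_iff]; exact hνA
      exact (measurePreserving_eval (fun _ : Fin n => ν) i).quasiMeasurePreserving.ae this
    have h2 : ∀ i : Fin n, ∀ j : Fin n, j ∈ Finset.Ioi i →
        ∀ᵐ z : Fin n → ℂ ∂(Measure.pi (fun _ => ν)), z i ≠ z j := by
      intro i j hj
      have hij : i ≠ j := (Finset.mem_Ioi.mp hj).ne
      have hl := pair_law (ν := ν) hij
      have h3 : ∀ᵐ p : ℂ × ℂ ∂(ν.prod ν), p.1 ≠ p.2 := by
        rw [Measure.ae_prod_iff_ae_ae]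
        · refine Filter.Eventually.of_forall fun x => ?_
          have h4 : ∀ᵐ y ∂ν, y ≠ x := by
            have h5 : ∀ᵐ y : ℂ, y ≠ x := by rw [ae_iff]; simp
            exact (withDensity_absolutelyContinuous volume f).ae_le h5
          filter_upwards [h4] with y hy
          exact hy.symm
        · exact (measurableSet_eq_fun measurable_fst measurable_snd).compl
      exact hl.quasiMeasurePreserving.ae h3
    have h2' : ∀ᵐ z : Fin n → ℂ ∂(Measure.pi (fun _ => ν)), ∀ i, ∀ j ∈ Finset.Ioi i, z i ≠ z j := by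
      rw [ae_all_iff]
      intro i
      rw [ae_all_iff]
      intro j
      rw [ae_all_iff]
      intro hj
      exact h2 i j hj
    filter_upwards [ae_all_iff.mpr h1, h2'] with z g1 g2
    exact ⟨g1, g2⟩
  obtain ⟨z, hzN, hz⟩ := exists_notMem_null_integral_le hFi (ae_iff.mp hae)
  simp only [mem_ofPred_eq, not_not] at hzN
  obtain ⟨hzA, hzd⟩ := hzN
  rw [hFv] at hz
  have hprodexp : ∏ i, ∏ j ∈ Finset.Ioi i, ‖z i - z j‖ = Real.exp (F z) := by
    simp only [hF]
    rw [Real.exp_sum]
    apply Finset.prod_congr rfl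
    intro i _
    rw [Real.exp_sum]
    apply Finset.prod_congr rfl
    intro j hj
    rw [Real.exp_log (norm_pos_iff.mpr (sub_ne_zero.mpr (hzd i j hj)))]
  have hn' : (2:ℝ) ≤ n := by exact_mod_cast hn
  have hnn : 0 < (n : ℝ) * (n - 1) := by nlinarith
  unfold diamN
  refine le_trans ?_ (le_csSup (sup_bound (hAR.trans Metric.ball_subset_closedBall) n) ⟨z, hzA, rfl⟩)
  rw [hprodexp, ← Real.exp_mul]
  apply Real.exp_le_exp.mpr
  have hq : ∀ q b : ℝ, 0 < q → b = (q / 2 * b) * (2 / q) := by
    intro q b hq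
    field_simp
  calc -bf w w = ((n : ℝ) * (n - 1) / 2 * -bf w w) * (2 / ((n : ℝ) * (n - 1))) := hq _ _ hnn
    _ ≤ F z * (2 / ((n : ℝ) * (n - 1))) := by
        apply mul_le_mul_of_nonneg_right hz
        positivity

lemma diamN_mono {E E' : Set ℂ} {R : ℝ} (hE' : E' ⊆ Metric.closedBall 0 R) (h : E ⊆ E') (hne : E.Nonempty)
    (n : ℕ) : diamN E n ≤ diamN E' n := by
  unfold diamN
  apply csSup_le_csSup (sup_bound hE' n)
  · obtain ⟨x, hx⟩ := hne
    exact ⟨_, fun _ => x, fun _ => hx, rfl⟩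
  · rintro r ⟨z, hz, rfl⟩
    exact ⟨z, fun i => h (hz i), rfl⟩

/-- a negative eigenvalue forces transfinite diameter greater than one -/
theorem tdiam_gt {A : Set ℂ} (hA : MeasurableSet A) {R : ℝ} (hR : 0 < R) (hAR : A ⊆ Metric.ball 0 R)
    {l : ℝ} (hl : l < 0) (h : IsEig A l) {T : ℝ}
    (hT : Filter.Tendsto (diamN (closure A)) Filter.atTop (𝓝 T)) : 1 < T := by
  obtain ⟨v, ⟨hv1, hv2, hv3, hv4⟩, hvpos, hvint⟩ := exists_pos_eig hR hA hAR (μ := -l) (by linarith)
    (by rwa [neg_neg])
  rw [neg_neg] at hv4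
  set I := ∫ x, v x with hI
  set w : ℂ → ℝ := A.indicator (fun x => max (hv1.mem.1.mk v x) 0 / I) with hw
  have hwm : Measurable w :=
    (((hv1.mem.1.stronglyMeasurable_mk.measurable).max measurable_const).div_const I).indicator hA
  have hw0 : ∀ x, 0 ≤ w x := by
    intro x
    by_cases hx : x ∈ A
    · simp only [hw]
      rw [indicator_of_mem hx]
      positivity
    · simp only [hw]
      rw [indicator_of_notMem hx]
  have hwA : ∀ x ∉ A, w x = 0 := fun x hx => indicator_of_notMem hx _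
  have hae : w =ᵐ[volume] fun x => I⁻¹ * v x := by
    filter_upwards [hv1.mem.1.ae_eq_mk, hvpos] with x h1 h2
    by_cases hx : x ∈ A
    · simp only [hw]
      rw [indicator_of_mem hx, ← h1, max_eq_left h2, div_eq_inv_mul]
    · rw [hwA x hx, hv2 x hx, mul_zero]
  have hwN : Nice R w := by
    refine ⟨(memLp_congr_ae hae).mpr (hv1.mem.const_mul I⁻¹), fun x hx => hwA x fun h => ?_⟩
    have := hAR h
    rw [Metric.mem_ball, dist_zero_right] at this
    linarith
  have hw1 : ∫ x, w x = 1 := by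
    rw [integral_congr_ae hae, integral_const_mul, ← hI, inv_mul_cancel₀ hvint.ne']
  have hvsq : 0 < ∫ x, v x ^ 2 := by
    apply lt_of_le_of_ne (integral_nonneg fun x => sq_nonneg _)
    intro h0
    apply hv3
    have := (integral_eq_zero_iff_of_nonneg (fun x => sq_nonneg (v x)) hv1.int_sq).mp h0.symm
    filter_upwards [this] with x hx
    simpa using hx
  have hbf : bf w w = I⁻¹ ^ 2 * (l * ∫ x, v x ^ 2) := by
    unfold bf
    rw [pot_congr hae, ← integral_const_mul, ← integral_const_mul]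
    apply integral_congr_ae
    filter_upwards [hae, hv4] with x h1 h2
    rw [h1, pot_smul]
    by_cases hx : x ∈ A
    · rw [h2 hx]; ring
    · rw [hv2 x hx]; ring
  have hneg : bf w w < 0 := by
    rw [hbf]
    have h1 : 0 < I⁻¹ ^ 2 := by positivity
    have h2 : l * ∫ x, v x ^ 2 < 0 := mul_neg_of_neg_of_pos hl hvsq
    exact mul_neg_of_pos_of_neg h1 h2
  have hne : A.Nonempty := by
    by_contra hcon
    rw [not_nonempty_iff_eq_empty] at hcon
    apply hv3
    refine Filter.Eventually.of_forall fun x => ?_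
    exact hv2 x (by rw [hcon]; simp)
  have hcl : closure A ⊆ Metric.closedBall 0 R :=
    closure_minimal (hAR.trans Metric.ball_subset_closedBall) Metric.isClosed_closedBall
  have hT2 : Real.exp (-bf w w) ≤ T := by
    apply ge_of_tendsto hT
    filter_upwards [Filter.eventually_ge_atTop 2] with n hn
    exact (diamN_ge hR hAR hwN hwm hw0 hwA hA hw1 hn).trans (diamN_mono hcl subset_closure hne n)
  have : 1 < Real.exp (-bf w w) := Real.one_lt_exp_iff.mpr (by linarith)
  linarith

end Pool.Agent.KS6_23.LP
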