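import Pool.Agent.KS6_23.LP.LP10

set_option autoImplicit false

open MeasureTheory Set
open scoped Topology ENNReal NNReal RealInnerProductSpace

namespace Pool.Agent.KS6_23.LP

/-- the kernel `log⁺ (s/|z|)` -/
noncomputable def phi (s : ℝ) (z : ℂ) : ℝ := Real.posLog (s * ‖z‖⁻¹)

lemma phi_nonneg (s : ℝ) (z : ℂ) : 0 ≤ phi s z := Real.posLog_nonneg

lemma phi_zero {s : ℝ} (hs : 0 < s) {z : ℂ} (hz : s ≤ ‖z‖) : phi s z = 0 := by
  unfold phi
  have hz0 : 0 < ‖z‖ := by linarith
  rw [Real.posLog_eq_zero_iff, abs_of_pos (by positivity), ← div_eq_mul_inv, div_le_one hz0]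
  exact hz

lemma phi_eq {s : ℝ} {z : ℂ} (hz0 : z ≠ 0) (hz : ‖z‖ < s) :
    phi s z = Real.log s - Real.log ‖z‖ := by
  have h0 : 0 < ‖z‖ := norm_pos_iff.2 hz0
  have hs : 0 < s := by linarith
  unfold phi
  rw [Real.posLog_eq_log]
  · rw [Real.log_mul hs.ne' (inv_ne_zero h0.ne'), Real.log_inv]; ring
  · rw [abs_of_pos (by positivity), ← div_eq_mul_inv, le_div_iff₀ h0]; linarith

lemma phi_pos {s : ℝ} {z : ℂ} (hz0 : z ≠ 0) (hz : ‖z‖ < s) : 0 < phi s z := by
  rw [phi_eq hz0 hz, sub_pos]
  exact Real.log_lt_log (norm_pos_iff.2 hz0) hz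

lemma phi_rot {s : ℝ} {z w : ℂ} (h : ‖z‖ = ‖w‖) : phi s z = phi s w := by
  unfold phi; rw [h]

lemma phi_meas (s : ℝ) : Measurable (phi s) := by
  unfold phi
  have := Real.continuous_posLog.measurable
  exact this.comp (by fun_prop)

lemma phi_le {s : ℝ} (hs : 0 < s) (z : ℂ) :
    phi s z ≤ s * (Metric.ball (0 : ℂ) s).indicator (fun z => ‖z‖⁻¹) z := by
  by_cases hz : z ∈ Metric.ball (0 : ℂ) s
  · rw [indicator_of_mem hz]
    rw [Metric.mem_ball, dist_zero_right] at hz
    by_cases h0 : z = 0
    · subst h0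
      unfold phi
      simp
    · rw [phi_eq h0 hz]
      have hz0 : 0 < ‖z‖ := norm_pos_iff.2 h0
      rw [← Real.log_div hs.ne' hz0.ne', ← div_eq_mul_inv]
      have := Real.log_le_sub_one_of_pos (div_pos hs hz0)
      linarith
  · rw [indicator_of_notMem hz, mul_zero]
    rw [Metric.mem_ball, dist_zero_right, not_lt] at hz
    rw [phi_zero hs hz]

lemma phi_int {s : ℝ} (hs : 0 < s) :
    Integrable (phi s) ∧ ∫ z, phi s z ≤ 2 * Real.pi * s ^ 2 := by
  obtain ⟨h1, h2⟩ := inv_norm_ball hs
  have hi : Integrable (phi s) := by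
    refine (h1.const_mul s).mono' (phi_meas s).aestronglyMeasurable
      (Filter.Eventually.of_forall fun z => ?_)
    rw [Real.norm_eq_abs, abs_of_nonneg (phi_nonneg s z)]
    exact phi_le hs z
  refine ⟨hi, ?_⟩
  calc ∫ z, phi s z ≤ ∫ z, s * (Metric.ball (0 : ℂ) s).indicator (fun z => ‖z‖⁻¹) z :=
        integral_mono hi (h1.const_mul s) fun z => phi_le hs z
    _ = 2 * Real.pi * s ^ 2 := by rw [integral_const_mul, h2]; ring

/-- the circle average of a potential -/
lemma Nice.circ_sub {R : ℝ} (hR : 0 < R) {u : ℂ → ℝ} (hu : Nice R u) (c : ℂ) {r : ℝ} (hr : 0 < r) :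
    Integrable (fun y => phi r (y - c) * u y) ∧
    Real.circleAverage (pot u) c r = pot u c - ∫ y, phi r (y - c) * u y := by
  have hI : Integrable (fun y => -(Real.log r + Real.posLog (r⁻¹ * ‖c - y‖)) * u y) := by
    have hcb : ContinuousOn (fun y => -(Real.log r + Real.posLog (r⁻¹ * ‖c - y‖)))
        (Metric.closedBall (0:ℂ) R) := by
      apply Continuous.continuousOn
      have := Real.continuous_posLog
      fun_prop
    obtain ⟨M, hM⟩ := (isCompact_closedBall (0:ℂ) R).exists_bound_of_continuousOn hcb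
    refine (hu.integrable.norm.const_mul M).mono' ?_ ?_
    · apply AEStronglyMeasurable.mul
      · have : Continuous (fun y : ℂ => -(Real.log r + Real.posLog (r⁻¹ * ‖c - y‖))) := by
          have := Real.continuous_posLog
          fun_prop
        exact this.aestronglyMeasurable
      · exact hu.mem.1
    · refine Filter.Eventually.of_forall fun y => ?_
      by_cases hy : R ≤ ‖y‖
      · rw [hu.van y hy]; simp
      · rw [norm_mul]
        exact mul_le_mul_of_nonneg_right (hM y (by simpa using (not_le.mp hy).le)) (norm_nonneg _)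
  have n1 : ∀ᵐ y : ℂ, y ≠ c := by
    rw [ae_iff]; simp
  have e : (fun y => lk c y * u y - -(Real.log r + Real.posLog (r⁻¹ * ‖c - y‖)) * u y) =ᵐ[volume]
      fun y => phi r (y - c) * u y := by
    filter_upwards [n1] with y hyc
    rw [← sub_mul]
    congr 1
    have p1 : 0 < ‖c - y‖ := norm_pos_iff.mpr (sub_ne_zero.mpr hyc.symm)
    unfold lk
    by_cases hb : ‖y - c‖ < r
    · rw [phi_eq (sub_ne_zero.2 hyc) hb]
      have h1 : Real.posLog (r⁻¹ * ‖c - y‖) = 0 := by
        rw [Real.posLog_eq_zero_iff, abs_of_pos (by positivity), inv_mul_eq_div, div_le_one hr,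
          norm_sub_rev]
        exact hb.le
      rw [h1, norm_sub_rev c y]; ring
    · push Not at hb
      rw [phi_zero hr hb]
      rw [norm_sub_rev] at hb
      rw [Real.posLog_eq_log]
      · rw [Real.log_mul (inv_ne_zero hr.ne') p1.ne', Real.log_inv]
        ring
      · rw [abs_of_pos (by positivity), inv_mul_eq_div, le_div_iff₀ hr]
        linarith
  constructor
  · exact ((hu.int hR c).sub hI).congr e
  · rw [← integral_congr_ae e, integral_sub (hu.int hR c) hI, hu.circ hR c hr]
    unfold pot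
    ring

/-- integration against a radial kernel sees only the circle averages -/
lemma rot_avg {φ g : ℂ → ℝ} (hφm : Measurable φ) (hφi : Integrable φ) (hφ0 : ∀ z, 0 ≤ φ z) {s : ℝ}
    (hφs : ∀ z, s ≤ ‖z‖ → φ z = 0) (hrot : ∀ z w : ℂ, ‖z‖ = ‖w‖ → φ z = φ w) (hg : Continuous g)
    (c : ℂ) {B : ℝ} (hB : ∀ t, 0 < t → t < s → Real.circleAverage g c t ≤ B) :
    ∫ z, φ z * g (c + z) ≤ B * ∫ z, φ z := by
  have hpi : (0:ℝ) < 2 * Real.pi := by positivity
  -- the rotated integrals agree
  have h1 : ∀ θ : ℝ, ∫ z, φ z * g (c + Complex.exp (θ * Complex.I) * z) = ∫ z, φ z * g (c + z) := by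
    intro θ
    have h := MeasureTheory.integral_comp (rotation (Circle.exp θ)) (fun z : ℂ => φ z * g (c + z))
    rw [← h]
    congr 1
    ext z
    have e1 : (rotation (Circle.exp θ)) z = Complex.exp (θ * Complex.I) * z := by
      rw [rotation_apply, Circle.coe_exp]
    have e2 : φ (Complex.exp (θ * Complex.I) * z) = φ z := by
      apply hrot
      rw [norm_mul, Complex.norm_exp_ofReal_mul_I, one_mul]
    rw [e1, e2]
  -- a bound for `g`
  obtain ⟨M, hM⟩ := (isCompact_closedBall c |s|).exists_bound_of_continuousOn hg.continuousOn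
  have hint : Integrable (Function.uncurry (fun (θ : ℝ) (z : ℂ) =>
      φ z * g (c + Complex.exp (θ * Complex.I) * z)))
      ((volume.restrict (Ioc 0 (2 * Real.pi))).prod volume) := by
    have hfin : IsFiniteMeasure (volume.restrict (Ioc (0:ℝ) (2 * Real.pi))) :=
      ⟨by rw [Measure.restrict_apply_univ]; exact measure_Ioc_lt_top⟩
    refine ((hφi.comp_snd (volume.restrict (Ioc 0 (2 * Real.pi)))).const_mul M).mono' ?_ ?_
    · apply AEStronglyMeasurable.mul
      · exact (hφm.comp measurable_snd).aestronglyMeasurable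
      · apply Continuous.aestronglyMeasurable
        fun_prop
    · refine Filter.Eventually.of_forall fun p => ?_
      obtain ⟨θ, z⟩ := p
      simp only [Function.uncurry_apply_pair]
      rw [norm_mul, Real.norm_eq_abs (φ z), abs_of_nonneg (hφ0 z)]
      by_cases hz : s ≤ ‖z‖
      · rw [hφs z hz]; simp
      · push Not at hz
        have h2 : ‖g (c + Complex.exp (θ * Complex.I) * z)‖ ≤ M := by
          apply hM
          rw [Metric.mem_closedBall, dist_eq_norm, add_sub_cancel_left, norm_mul,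
            Complex.norm_exp_ofReal_mul_I, one_mul]
          exact hz.le.trans (le_abs_self s)
        nlinarith [hφ0 z]
  have h2 : ∫ θ in Ioc (0:ℝ) (2 * Real.pi), ∫ z, φ z * g (c + Complex.exp (θ * Complex.I) * z) =
      (2 * Real.pi) * ∫ z, φ z * g (c + z) := by
    simp_rw [h1]
    rw [setIntegral_const, smul_eq_mul, Measure.real, Real.volume_Ioc, sub_zero,
      ENNReal.toReal_ofReal hpi.le]
  have h3 := integral_integral_swap hint
  rw [h2] at h3
  -- the averages
  have h4 : ∀ z : ℂ, z ≠ 0 → ∫ θ in Ioc (0:ℝ) (2 * Real.pi), g (c + Complex.exp (θ * Complex.I) * z) =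
      (2 * Real.pi) * Real.circleAverage g c ‖z‖ := by
    intro z hz
    have e1 : ∀ θ : ℝ, g (c + Complex.exp (θ * Complex.I) * z) = g (circleMap c ‖z‖ (θ + z.arg)) := by
      intro θ
      congr 1
      have := Complex.norm_mul_exp_arg_mul_I z
      unfold circleMap
      conv_lhs => rw [← this]
      push_cast
      rw [add_mul, Complex.exp_add]
      ring
    simp_rw [e1]
    rw [← intervalIntegral.integral_of_le hpi.le,
      intervalIntegral.integral_comp_add_right (fun θ => g (circleMap c ‖z‖ θ))]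
    have hper : Function.Periodic (fun θ => g (circleMap c ‖z‖ θ)) (2 * Real.pi) := by
      intro θ
      simp only
      rw [periodic_circleMap c ‖z‖ θ]
    have h5 := hper.intervalIntegral_add_eq z.arg 0
    rw [zero_add] at h5
    rw [zero_add, add_comm (2 * Real.pi) z.arg, h5, Real.circleAverage_def, smul_eq_mul,
      ← mul_assoc, mul_inv_cancel₀ hpi.ne', one_mul]
  have h5 : ∫ z, ∫ θ in Ioc (0:ℝ) (2 * Real.pi), φ z * g (c + Complex.exp (θ * Complex.I) * z) ≤
      ∫ z, φ z * ((2 * Real.pi) * B) := by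
    apply integral_mono_ae
    · exact hint.integral_prod_right
    · exact hφi.mul_const _
    · have n1 : ∀ᵐ y : ℂ, y ≠ 0 := by
        rw [ae_iff]; simp
      filter_upwards [n1] with z hz
      rw [integral_const_mul, h4 z hz]
      by_cases hzs : s ≤ ‖z‖
      · rw [hφs z hzs]; simp
      · push Not at hzs
        apply mul_le_mul_of_nonneg_left _ (hφ0 z)
        exact mul_le_mul_of_nonneg_left (hB _ (norm_pos_iff.2 hz) hzs) hpi.le
  rw [← h3, integral_mul_const] at h5
  have h6 : (2 * Real.pi) * ∫ z, φ z * g (c + z) ≤ (2 * Real.pi) * (B * ∫ z, φ z) := by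
    calc _ ≤ _ := h5
      _ = _ := by ring
  exact le_of_mul_le_mul_left h6 hpi

end Pool.Agent.KS6_23.LP
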