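import Pool.Agent.KS6_23.LP.LP11

set_option autoImplicit false

open MeasureTheory Set
open scoped Topology ENNReal NNReal RealInnerProductSpace

namespace Pool.Agent.KS6_23.LP

lemma zero_of_circleAverage {g : ℂ → ℝ} (hg : Continuous g) {c : ℂ} {t : ℝ} (ht : 0 < t)
    (h0 : ∀ x ∈ Metric.sphere c t, 0 ≤ g x) (h : Real.circleAverage g c t = 0) :
    ∀ x ∈ Metric.sphere c t, g x = 0 := by
  intro x hx
  by_contra hne
  have hpos : 0 < g x := lt_of_le_of_ne (h0 x hx) (Ne.symm hne)
  have hx' : x ∈ circleMap c t '' Ioc 0 (2 * Real.pi) := by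
    rw [image_circleMap_Ioc, abs_of_pos ht]; exact hx
  obtain ⟨θ, hθ, rfl⟩ := hx'
  have hpi : (0:ℝ) < 2 * Real.pi := by positivity
  have h3 : ∫ _ in (0:ℝ)..(2 * Real.pi), (0:ℝ) < ∫ θ in (0:ℝ)..(2 * Real.pi), g (circleMap c t θ) := by
    apply intervalIntegral.integral_lt_integral_of_continuousOn_of_le_of_exists_lt hpi
      continuousOn_const (hg.comp (continuous_circleMap c t)).continuousOn
    · intro θ _
      exact h0 _ (circleMap_mem_sphere c ht.le θ)
    · exact ⟨θ, Ioc_subset_Icc_self hθ, hpos⟩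
  rw [Real.circleAverage_def, smul_eq_mul] at h
  rw [intervalIntegral.integral_zero] at h3
  have h4 : 0 < (2 * Real.pi)⁻¹ * ∫ θ in (0:ℝ)..(2 * Real.pi), g (circleMap c t θ) := by positivity
  linarith

/-- **Strong minimum principle, local form.** -/
lemma Nice.smp_local {R : ℝ} (hR : 0 < R) {h : ℂ → ℝ} (hh : Nice R h) {c : ℂ} {r₀ K : ℝ}
    (hK : 0 ≤ K) (hg : ∀ x ∈ Metric.ball c r₀, 0 ≤ pot h x)
    (hae : ∀ᵐ y, y ∈ Metric.ball c r₀ → -h y ≤ K * pot h y) (h0 : pot h c = 0) {ρ : ℝ}
    (hρ : 0 < ρ) (hρr : ρ < r₀) (hq : K * (2 * Real.pi * ρ ^ 2) < 1) :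
    ∀ x ∈ Metric.closedBall c ρ, pot h x = 0 := by
  have hc := hh.continuous hR
  have hball : ∀ t, t ≤ ρ → ∀ x ∈ Metric.sphere c t, 0 ≤ pot h x := by
    intro t ht x hx
    apply hg
    rw [Metric.mem_ball]
    rw [Metric.mem_sphere] at hx
    linarith
  obtain ⟨G, hG⟩ := (isCompact_closedBall c ρ).exists_bound_of_continuousOn hc.continuousOn
  have hG0 : 0 ≤ G := (norm_nonneg _).trans (hG c (Metric.mem_closedBall_self hρ.le))
  set q := K * (2 * Real.pi * ρ ^ 2) with hqdef
  have hq0 : 0 ≤ q := by positivity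
  have hci : ∀ t, CircleIntegrable (pot h) c t := fun t => hc.continuousOn.circleIntegrable'
  have step : ∀ B : ℝ, 0 ≤ B → (∀ t, 0 < t → t ≤ ρ → Real.circleAverage (pot h) c t ≤ B) →
      ∀ s, 0 < s → s ≤ ρ → Real.circleAverage (pot h) c s ≤ q * B := by
    intro B hB hBt s hs hsρ
    obtain ⟨i1, e1⟩ := hh.circ_sub hR c hs
    rw [e1, h0, zero_sub]
    have hpot : Integrable (fun y => phi s (y - c) * pot h y) := by
      have hi := (phi_int hs).1.comp_sub_right c
      refine (hi.const_mul G).mono' ?_ (Filter.Eventually.of_forall fun y => ?_)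
      · apply AEStronglyMeasurable.mul
        · exact hi.aestronglyMeasurable
        · exact hc.aestronglyMeasurable
      · rw [norm_mul, Real.norm_eq_abs, abs_of_nonneg (phi_nonneg _ _)]
        by_cases hy : s ≤ ‖y - c‖
        · rw [phi_zero hs hy]; simp
        · push Not at hy
          have h2 : ‖pot h y‖ ≤ G := by
            apply hG
            rw [Metric.mem_closedBall, dist_eq_norm]
            linarith
          nlinarith [phi_nonneg s (y - c)]
    calc -∫ y, phi s (y - c) * h y = ∫ y, phi s (y - c) * (-h y) := by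
          rw [← integral_neg]; congr 1; ext y; ring
      _ ≤ ∫ y, K * (phi s (y - c) * pot h y) := by
          apply integral_mono_ae
          · have := i1.neg
            refine this.congr (Filter.Eventually.of_forall fun y => ?_)
            simp only [Pi.neg_apply]; ring
          · exact hpot.const_mul K
          · filter_upwards [hae] with y hy
            by_cases hy2 : s ≤ ‖y - c‖
            · rw [phi_zero hs hy2]; simp
            · push Not at hy2
              have h3 := hy (by rw [Metric.mem_ball, dist_eq_norm]; linarith)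
              have := mul_le_mul_of_nonneg_left h3 (phi_nonneg s (y - c))
              linarith
      _ = K * ∫ y, phi s (y - c) * pot h y := integral_const_mul _ _
      _ = K * ∫ z, phi s z * pot h (c + z) := by
          congr 1
          have := integral_sub_right_eq_self (fun z : ℂ => phi s z * pot h (c + z)) (μ := volume) c
          rw [← this]
          congr 1
          ext y
          rw [add_sub_cancel]
      _ ≤ K * (B * ∫ z, phi s z) := by
          apply mul_le_mul_of_nonneg_left _ hK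
          exact rot_avg (phi_meas s) (phi_int hs).1 (phi_nonneg s) (fun z hz => phi_zero hs hz)
            (fun z w hzw => phi_rot hzw) hc c (fun t ht hts => hBt t ht (by linarith))
      _ ≤ K * (B * (2 * Real.pi * s ^ 2)) := by
          have := (phi_int hs).2
          gcongr
      _ ≤ K * (B * (2 * Real.pi * ρ ^ 2)) := by gcongr
      _ = q * B := by rw [hqdef]; ring
  have hpow : ∀ n : ℕ, ∀ t, 0 < t → t ≤ ρ → Real.circleAverage (pot h) c t ≤ q ^ n * G := by
    intro n
    induction n with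
    | zero =>
      intro t ht htρ
      rw [pow_zero, one_mul]
      apply Real.circleAverage_mono_on_of_le_circle (hci t)
      intro x hx
      rw [abs_of_pos ht, Metric.mem_sphere] at hx
      exact (le_abs_self _).trans (hG x (by rw [Metric.mem_closedBall]; linarith))
    | succ n ih =>
      intro t ht htρ
      have := step (q ^ n * G) (by positivity) ih t ht htρ
      calc _ ≤ _ := this
        _ = q ^ (n + 1) * G := by ring
  have hzero : ∀ t, 0 < t → t ≤ ρ → Real.circleAverage (pot h) c t = 0 := by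
    intro t ht htρ
    apply le_antisymm
    · have hl : Filter.Tendsto (fun n : ℕ => q ^ n * G) Filter.atTop (𝓝 (0 * G)) :=
        (tendsto_pow_atTop_nhds_zero_of_lt_one hq0 hq).mul_const G
      rw [zero_mul] at hl
      exact ge_of_tendsto' hl fun n => hpow n t ht htρ
    · apply Real.circleAverage_nonneg_of_nonneg
      intro x hx
      rw [abs_of_pos ht] at hx
      exact hball t htρ x hx
  intro x hx
  rw [Metric.mem_closedBall, dist_eq_norm] at hx
  by_cases hxc : x = c
  · rw [hxc, h0]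
  · have ht : 0 < ‖x - c‖ := norm_pos_iff.2 (sub_ne_zero.2 hxc)
    exact zero_of_circleAverage hc ht (hball _ hx) (hzero _ ht hx) x
      (by rw [Metric.mem_sphere, dist_eq_norm])

lemma exists_small {K r₀ : ℝ} (hK : 0 ≤ K) (hr₀ : 0 < r₀) :
    ∃ ρ, 0 < ρ ∧ ρ < r₀ ∧ K * (2 * Real.pi * ρ ^ 2) < 1 := by
  have hpi := Real.pi_pos
  set ρ := min (r₀ / 2) (min 1 (1 / (2 * (K + 1) * (2 * Real.pi)))) with hρ
  have h1 : 0 < ρ := by positivity
  have h2 : ρ ≤ r₀ / 2 := min_le_left _ _
  have h3 : ρ ≤ 1 := (min_le_right _ _).trans (min_le_left _ _)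
  have h4 : ρ ≤ 1 / (2 * (K + 1) * (2 * Real.pi)) := (min_le_right _ _).trans (min_le_right _ _)
  refine ⟨ρ, h1, by linarith, ?_⟩
  have h5 : ρ ^ 2 ≤ ρ := by nlinarith
  rw [le_div_iff₀ (by positivity)] at h4
  have h6 : K * (2 * Real.pi * ρ ^ 2) ≤ K * (2 * Real.pi * ρ) := by gcongr
  nlinarith [mul_pos hpi h1]

/-- **Strong minimum principle.** -/
lemma Nice.smp {R : ℝ} (hR : 0 < R) {h : ℂ → ℝ} (hh : Nice R h) {U : Set ℂ} (hU : IsOpen U)
    (hUc : IsPreconnected U) {K : ℝ} (hK : 0 ≤ K) (hg : ∀ x ∈ U, 0 ≤ pot h x)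
    (hae : ∀ᵐ y, y ∈ U → -h y ≤ K * pot h y) {c : ℂ} (hcU : c ∈ U) (h0 : pot h c = 0) :
    ∀ x ∈ U, pot h x = 0 := by
  have hc := hh.continuous hR
  set Z : Set ℂ := {x | x ∈ U ∧ pot h x = 0} with hZ
  set V : Set ℂ := {x | x ∈ U ∧ 0 < pot h x} with hV
  have hZo : IsOpen Z := by
    rw [Metric.isOpen_iff]
    rintro x ⟨hxU, hx0⟩
    obtain ⟨r₀, hr₀, hball⟩ := Metric.isOpen_iff.1 hU x hxU
    obtain ⟨ρ, hρ, hρr, hq⟩ := exists_small hK hr₀
    have := hh.smp_local hR hK (fun y hy => hg y (hball hy))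
      (by filter_upwards [hae] with y hy hyb; exact hy (hball hyb)) hx0 hρ hρr hq
    refine ⟨ρ, hρ, fun y hy => ⟨hball ?_, this y (Metric.ball_subset_closedBall hy)⟩⟩
    exact Metric.ball_subset_ball hρr.le hy
  have hVo : IsOpen V := hU.inter (isOpen_lt continuous_const hc)
  have hdis : Disjoint Z V := by
    rw [Set.disjoint_left]
    rintro x ⟨-, h1⟩ ⟨-, h2⟩
    linarith
  have hcov : U ⊆ Z ∪ V := by
    intro x hx
    rcases (hg x hx).eq_or_lt with h1 | h1
    · exact Or.inl ⟨hx, h1.symm⟩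
    · exact Or.inr ⟨hx, h1⟩
  have := hUc.subset_left_of_subset_union hZo hVo hdis hcov ⟨c, hcU, hcU, h0⟩
  exact fun x hx => (this hx).2

/-- If the potential vanishes on an open set on which `h ≥ 0` then `h = 0` there. -/
lemma Nice.zero_of_pot {R : ℝ} (hR : 0 < R) {h : ℂ → ℝ} (hh : Nice R h) {U : Set ℂ} (hU : IsOpen U)
    (hg : ∀ x ∈ U, pot h x = 0) (hae : ∀ᵐ y, y ∈ U → 0 ≤ h y) : ∀ᵐ y, y ∈ U → h y = 0 := by
  have hnull : volume {y | y ∈ U ∧ h y ≠ 0} = 0 := by
    apply measure_null_of_locally_null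
    rintro c ⟨hcU, -⟩
    obtain ⟨r₀, hr₀, hball⟩ := Metric.isOpen_iff.1 hU c hcU
    have hr : 0 < r₀ / 2 := by positivity
    obtain ⟨i1, e1⟩ := hh.circ_sub hR c hr
    have hci : Real.circleAverage (pot h) c (r₀ / 2) = 0 := by
      have : Real.circleAverage (pot h) c (r₀ / 2) = Real.circleAverage (fun _ => (0:ℝ)) c (r₀ / 2) := by
        apply Real.circleAverage_congr_sphere
        intro x hx
        apply hg
        apply hball
        rw [abs_of_pos hr, Metric.mem_sphere] at hx
        rw [Metric.mem_ball]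
        linarith
      rw [this, Real.circleAverage_const]
    rw [hci, hg c hcU, zero_sub] at e1
    have e2 : ∫ y, phi (r₀ / 2) (y - c) * h y = 0 := by linarith
    have hnn : 0 ≤ᵐ[volume] fun y => phi (r₀ / 2) (y - c) * h y := by
      filter_upwards [hae] with y hy
      by_cases hy2 : r₀ / 2 ≤ ‖y - c‖
      · rw [phi_zero hr hy2]; simp
      · push Not at hy2
        exact mul_nonneg (phi_nonneg _ _)
          (hy (hball (by rw [Metric.mem_ball, dist_eq_norm]; linarith)))
    have e3 := (integral_eq_zero_iff_of_nonneg_ae hnn i1).1 e2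
    have n1 : ∀ᵐ y : ℂ, y ≠ c := by
      rw [ae_iff]; simp
    have e4 : ∀ᵐ y, ¬ (y ∈ Metric.ball c (r₀ / 2) ∧ h y ≠ 0) := by
      filter_upwards [e3, n1] with y hy hyc
      rintro ⟨h1, h2⟩
      rw [Metric.mem_ball, dist_eq_norm] at h1
      have h3 : phi (r₀ / 2) (y - c) * h y = 0 := hy
      rcases mul_eq_zero.1 h3 with h4 | h4
      · exact (phi_pos (sub_ne_zero.2 hyc) h1).ne' h4
      · exact h2 h4
    refine ⟨{y | y ∈ U ∧ h y ≠ 0} ∩ Metric.ball c (r₀ / 2),
      inter_mem_nhdsWithin _ (Metric.ball_mem_nhds c hr), ?_⟩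
    rw [ae_iff] at e4
    refine measure_mono_null ?_ e4
    rintro y ⟨⟨-, h1⟩, h2⟩
    simp only [mem_ofPred_eq, not_not]
    exact ⟨h2, h1⟩
  have : ∀ᵐ y, ¬ (y ∈ U ∧ h y ≠ 0) := by
    rw [ae_iff]
    simpa using hnull
  filter_upwards [this] with y hy hyU
  by_contra hne
  exact hy ⟨hyU, hne⟩

end Pool.Agent.KS6_23.LP
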