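import Pool.Agent.KS6_23.LP.LP12

set_option autoImplicit false

open MeasureTheory Set
open scoped Topology ENNReal NNReal RealInnerProductSpace

namespace Pool.Agent.KS6_23.LP

lemma NEig.pot_nonneg {R : ℝ} (hR : 0 < R) {A : Set ℂ} {μ : ℝ} (hμ : 0 < μ) {v : ℂ → ℝ}
    (hv : NEig R A (-μ) v) (h0 : 0 ≤ ∫ x, v x) : ∀ x, 0 ≤ pot (fun x => (-1) * v x) x := by
  obtain ⟨h1, h2, h3, h4⟩ := hv
  have hn : Nice R (fun x => (-1) * v x) := h1.smul (-1)
  have hint : ∫ x, (-1) * v x ≤ 0 := by rw [integral_const_mul]; linarith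
  have hp : ∀ x, pot (fun x => (-1) * v x) x = - pot v x := fun x => by rw [pot_smul]; ring
  have hmp := hn.maxp hR isOpen_univ (fun m hm => ⟨by
      have := hn.sublevel hR hint (C := closure univ) isClosed_closure hm
      exact this, subset_univ _⟩) (by
      filter_upwards [h4] with y hy _ hneg
      by_cases hyA : y ∈ A
      · rw [hp, hy hyA] at hneg
        nlinarith
      · rw [h2 y hyA]; simp)
  exact fun x => hmp x (mem_univ x)

/-- eigenfunctions for a negative eigenvalue with nonnegative integral are positive -/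
lemma NEig.pos {R : ℝ} (hR : 0 < R) {A : Set ℂ} {μ : ℝ} (hμ : 0 < μ) {v : ℂ → ℝ}
    (hv : NEig R A (-μ) v) (h0 : 0 ≤ ∫ x, v x) : ∀ᵐ x, x ∈ A → 0 < v x := by
  have hnn := hv.pot_nonneg hR hμ h0
  obtain ⟨h1, h2, h3, h4⟩ := hv
  have hn : Nice R (fun x => (-1) * v x) := h1.smul (-1)
  have hp : ∀ x, pot (fun x => (-1) * v x) x = - pot v x := fun x => by rw [pot_smul]; ring
  have hae : ∀ᵐ y, y ∈ (univ : Set ℂ) →
      -((-1) * v y) ≤ (1 / μ) * pot (fun x => (-1) * v x) y := by
    filter_upwards [h4] with y hy _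
    by_cases hyA : y ∈ A
    · rw [hp, hy hyA]
      apply le_of_eq
      field_simp
    · have := hnn y
      rw [h2 y hyA]
      have : 0 ≤ (1 / μ) * pot (fun x => (-1) * v x) y := by positivity
      simpa using this
  have hpos : ∀ x, 0 < pot (fun x => (-1) * v x) x := by
    intro x
    refine lt_of_le_of_ne (hnn x) fun hx => ?_
    have hz := hn.smp hR isOpen_univ isPreconnected_univ (by positivity : 0 ≤ 1 / μ)
      (fun y _ => hnn y) hae (mem_univ x) hx.symm
    apply h3
    filter_upwards [h4] with y hy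
    by_cases hyA : y ∈ A
    · have h5 := hz y (mem_univ y)
      rw [hp, hy hyA] at h5
      have h6 : μ * v y = 0 := by linarith
      exact (mul_eq_zero.1 h6).resolve_left hμ.ne'
    · exact h2 y hyA
  filter_upwards [h4] with x hx hxA
  have h5 := hpos x
  rw [hp, hx hxA] at h5
  have h6 : 0 < μ * v x := by linarith
  exact (mul_pos_iff_of_pos_left hμ).1 h6

/-- the strict polarization inequality for the negative eigenvalue, for bounded measurable sets -/
theorem polar_strict (P : HP) {A : Set ℂ} (hA : MeasurableSet A) {R₀ : ℝ} (hA0 : A ⊆ Metric.ball 0 R₀)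
    {μ : ℝ} (hμ : 0 < μ) (heig : IsEig (P.pol A) (-μ))
    (hV : volume ((A ∩ (P.σ ⁻¹' A)ᶜ) ∩ P.H) ≠ 0) (hV' : volume ((P.σ ⁻¹' A ∩ Aᶜ) ∩ P.H) ≠ 0) :
    ∃ l < -μ, IsEig A l := by
  set R : ℝ := |R₀| + ‖P.σ 0‖ + 1 with hRdef
  have hR : 0 < R := by positivity
  have hB : ∀ x, (x ∈ A ∨ P.σ x ∈ A) → ‖x‖ < R := by
    intro x hx
    have hR₀ : R₀ ≤ |R₀| := le_abs_self _
    have hσ0 := norm_nonneg (P.σ 0)
    rcases hx with hx | hx
    · have := hA0 hx
      rw [Metric.mem_ball, dist_zero_right] at this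
      linarith
    · have h1 := hA0 hx
      rw [Metric.mem_ball, dist_zero_right] at h1
      have h2 : ‖x‖ ≤ ‖P.σ x‖ + ‖P.σ 0‖ := by
        calc ‖x‖ = ‖P.σ (P.σ x)‖ := by rw [P.σσ]
          _ = ‖(P.σ (P.σ x) - P.σ 0) + P.σ 0‖ := by rw [sub_add_cancel]
          _ ≤ ‖P.σ (P.σ x) - P.σ 0‖ + ‖P.σ 0‖ := norm_add_le _ _
          _ = ‖P.σ x‖ + ‖P.σ 0‖ := by rw [P.σ_isom, sub_zero]
      linarith
  have hmk : ∀ u : ℂ → ℝ, MemLp u 2 volume → (∀ x, ¬ (x ∈ A ∨ P.σ x ∈ A) → u x = 0) → Nice R u := by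
    intro u hu hu0
    refine ⟨hu, fun x hx => hu0 x fun h => ?_⟩
    have := hB x h
    linarith
  have hPA : P.pol A ⊆ Metric.ball 0 R := by
    intro x hx
    rw [Metric.mem_ball, dist_zero_right]
    apply hB
    rw [P.mem_pol] at hx
    tauto
  obtain ⟨v, hvE, hvpos, hvint⟩ := exists_pos_eig hR (P.pol_meas hA) hPA hμ heig
  have hvstr := hvE.pos hR hμ hvint.le
  obtain ⟨hvN, hvP, -, hveq⟩ := hvE
  -- pieces
  set S : Set ℂ := A ∩ P.σ ⁻¹' A with hS
  have hSm : MeasurableSet S := hA.inter (P.σ_meas hA)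
  have hSR : S ⊆ Metric.ball 0 R := by
    intro x hx
    rw [Metric.mem_ball, dist_zero_right]
    exact hB x (Or.inl hx.1)
  have hSσ : ∀ x, P.σ x ∈ S ↔ x ∈ S := by
    intro x
    simp only [hS, mem_inter_iff, mem_preimage, P.σσ]
    exact and_comm
  set N : Set ℂ := (A ∩ (P.σ ⁻¹' A)ᶜ) ∩ P.H with hN
  have hNm : MeasurableSet N := (hA.inter (P.σ_meas hA).compl).inter P.H_open.measurableSet
  set f : ℂ → ℝ := N.indicator v with hf
  have hfm : MemLp f 2 volume := hvN.mem.indicator hNm
  set F : ℂ → ℝ := fun x => f x - f (P.σ x) with hF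
  have hFodd : ∀ x, F (P.σ x) = - F x := by
    intro x
    simp only [hF, P.σσ]; ring
  have hf0 : ∀ x, x ∉ A → f x = 0 := by
    intro x hx
    apply indicator_of_notMem
    intro h
    exact hx h.1.1
  have hFN : Nice R F := hmk F (hfm.sub (P.comp_mp hfm)) (by
    intro x hx
    simp only [hF]
    rw [hf0 x (fun h => hx (Or.inl h)), hf0 _ (fun h => hx (Or.inr h)), sub_zero])
  obtain ⟨d, hdN, hd0, -, c, hdc⟩ := solve hR hSm hSR hμ hFN
  set d₁ : ℂ → ℝ := fun x => (1 / 2) * (d x - d (P.σ x)) with hd₁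
  have hd₁0 : ∀ x, x ∉ S → d₁ x = 0 := by
    intro x hx
    simp only [hd₁]
    rw [hd0 x hx, hd0 _ (fun h => hx ((hSσ x).mp h))]; ring
  have hdσN : Nice R (fun x => d (P.σ x)) := hmk _ (P.comp_mp hdN.mem) (by
    intro x hx
    apply hd0
    intro h
    exact hx (Or.inl ((hSσ x).mp h).1))
  have hd₁N : Nice R d₁ := (hdN.sub hdσN).smul (1 / 2)
  have hd₁odd : ∀ x, d₁ (P.σ x) = - d₁ x := by
    intro x
    simp only [hd₁, P.σσ]; ring
  set h : ℂ → ℝ := fun x => F x + d₁ x with hh
  have hhN : Nice R h := hFN.add hd₁N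
  have hhodd : ∀ x, h (P.σ x) = - h x := by
    intro x
    simp only [hh]
    rw [hFodd, hd₁odd]; ring
  have hgodd : ∀ x, pot h (P.σ x) = - pot h x := by
    intro x
    rw [← P.pot_comp h x]
    have : (fun y => h (P.σ y)) = fun y => (-1) * h y := by
      ext y; rw [hhodd]; ring
    rw [this, pot_smul]; ring
  have hFpodd : ∀ x, pot F (P.σ x) = - pot F x := by
    intro x
    rw [← P.pot_comp F x]
    have : (fun y => F (P.σ y)) = fun y => (-1) * F y := by
      ext y; rw [hFodd]; ring
    rw [this, pot_smul]; ring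
  have hFS : ∀ x ∈ S, F x = 0 := by
    intro x hx
    simp only [hF]
    have h1 : f x = 0 := indicator_of_notMem (fun h => h.1.2 hx.2) _
    have h2 : f (P.σ x) = 0 := indicator_of_notMem (fun h => h.1.2 (by
      rw [mem_preimage, P.σσ]; exact hx.1)) _
    rw [h1, h2, sub_zero]
  -- the equation on S
  have hS_eq : ∀ᵐ x, x ∈ S → pot h x = -μ * h x := by
    have hdc' := P.σ_mp.quasiMeasurePreserving.ae hdc
    filter_upwards [hdc, hdc'] with x h1 h2 hx
    have g1 := h1 hx
    have g2 := h2 ((hSσ x).mpr hx)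
    have e1 : pot h x = pot F x + pot d₁ x := hFN.pot_add hR hd₁N x
    have e2 : pot d₁ x = (1 / 2) * (pot d x - pot d (P.σ x)) := by
      simp only [hd₁]
      rw [pot_smul (fun x => d x - d (P.σ x)), hdN.pot_sub hR hdσN, P.pot_comp]
    have e3 : h x = d₁ x := by simp only [hh]; rw [hFS x hx, zero_add]
    rw [e1, e2, e3]
    simp only [hd₁]
    rw [hFpodd] at g2
    linarith
  -- integral of h
  have hhint : ∫ x, h x = 0 := by
    have h1 := P.int_comp h
    simp_rw [hhodd] at h1
    rw [integral_neg] at h1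
    linarith
  -- values on the half plane, off S
  have hσH : ∀ x, 0 < P.s x → ¬ 0 < P.s (P.σ x) := by
    intro x hx
    rw [P.s_σ]; linarith
  have hfσ : ∀ x, 0 < P.s x → f (P.σ x) = 0 := fun x hx =>
    indicator_of_notMem (fun h => hσH x hx h.2) _
  have hoff : ∀ x, 0 < P.s x → x ∉ S → h x = f x := by
    intro x hx hxS
    simp only [hh, hF]
    rw [hfσ x hx, hd₁0 x hxS]; ring
  -- maximum principle
  have hgpos : ∀ x ∈ P.H, 0 ≤ pot h x := by
    apply hhN.maxp hR P.H_open
    · intro m hm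
      refine ⟨hhN.sublevel hR hhint.le isClosed_closure hm, ?_⟩
      rintro x ⟨hx1, hx2⟩
      by_contra hxH
      have h1 : P.s x = 0 := le_antisymm (not_lt.mp hxH) (P.closure_H hx1)
      have h2 := hgodd x
      rw [P.σ_fix h1] at h2
      linarith
    · filter_upwards [hS_eq, hvpos] with y h1 h2 hyH hyneg
      by_cases hyS : y ∈ S
      · have := h1 hyS
        nlinarith
      · rw [hoff y hyH hyS]
        simp only [hf]
        by_cases hyN : y ∈ N
        · rw [indicator_of_mem hyN]; exact h2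
        · rw [indicator_of_notMem hyN]
  -- strict positivity on the half plane
  have hHc : IsPreconnected P.H := by
    have h1 : Convex ℝ P.H := by
      have : P.H = {x : ℂ | P.c < ⟪P.n, x⟫} := by
        ext x
        change 0 < ⟪P.n, x⟫ - P.c ↔ P.c < ⟪P.n, x⟫
        rw [sub_pos]
      rw [this]
      exact convex_halfSpace_gt ⟨fun x y => inner_add_right _ _ _,
        fun c x => by rw [real_inner_smul_right, smul_eq_mul]⟩ _
    exact h1.isPreconnected
  have hhlow : ∀ᵐ y, y ∈ P.H → -h y ≤ (1 / μ) * pot h y := by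
    filter_upwards [hS_eq, hvpos] with y h1 h2 hyH
    have h3 := hgpos y hyH
    by_cases hyS : y ∈ S
    · rw [h1 hyS]
      apply le_of_eq
      field_simp
    · have h4 : 0 ≤ (1 / μ) * pot h y := by positivity
      rw [hoff y hyH hyS]
      have h5 : 0 ≤ f y := by
        simp only [hf]
        by_cases hyN : y ∈ N
        · rw [indicator_of_mem hyN]; exact h2
        · rw [indicator_of_notMem hyN]
      linarith
  have hgstr : ∀ x ∈ P.H, 0 < pot h x := by
    intro x hx
    refine lt_of_le_of_ne (hgpos x hx) fun h0 => ?_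
    have hz := hhN.smp hR P.H_open hHc (by positivity : 0 ≤ 1 / μ) hgpos hhlow hx h0.symm
    have hh0 : ∀ᵐ y, y ∈ P.H → 0 ≤ h y := by
      filter_upwards [hhlow] with y hy hyH
      have := hy hyH
      rw [hz y hyH] at this
      linarith
    have hh1 := hhN.zero_of_pot hR P.H_open hz hh0
    apply hV
    have h3 : ∀ᵐ y, y ∉ (A ∩ (P.σ ⁻¹' A)ᶜ) ∩ P.H := by
      filter_upwards [hh1, hvstr] with y h1 h2 hy
      have hyN : y ∈ N := hy
      have hyS : y ∉ S := fun h => hy.1.2 h.2
      have h4 := h1 hy.2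
      rw [hoff y hy.2 hyS] at h4
      simp only [hf] at h4
      rw [indicator_of_mem hyN] at h4
      have h5 := h2 (by
        rw [P.mem_pol]
        exact Or.inl ⟨Or.inl hy.1.1, hy.2⟩)
      linarith
    exact measure_eq_zero_iff_ae_notMem.mpr h3
  -- the trial function
  have hvσN : Nice R (fun x => v (P.σ x)) := hmk _ (P.comp_mp hvN.mem) (by
    intro x hx
    apply hvP
    rw [P.mem_pol, P.σσ]
    tauto)
  have huN : Nice R (fun x => v (P.σ x) + h x) := hvσN.add hhN
  have huA : ∀ x ∉ A, v (P.σ x) + h x = 0 := by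
    intro x hxA
    have hxS : x ∉ S := fun h => hxA h.1
    have h1 : h x = - f (P.σ x) := by
      simp only [hh, hF]
      rw [hf0 x hxA, hd₁0 x hxS]; ring
    rw [h1]
    by_cases hN2 : P.σ x ∈ N
    · simp only [hf]
      rw [indicator_of_mem hN2]; ring
    · simp only [hf]
      rw [indicator_of_notMem hN2, hvP]
      · ring
      · intro h2
        rw [P.mem_pol, P.σσ] at h2
        apply hN2
        refine ⟨⟨?_, ?_⟩, ?_⟩
        · tauto
        · rw [mem_compl_iff, mem_preimage, P.σσ]; exact hxA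
        · change 0 < P.s (P.σ x)
          tauto
  have huint : ∫ x, (v (P.σ x) + h x) = ∫ x, v x := by
    rw [integral_add hvσN.integrable hhN.integrable, hhint, P.int_comp v, add_zero]
  have hu0 : ¬ ((fun x => v (P.σ x) + h x) =ᵐ[volume] 0) := by
    intro h0
    have h1 : ∫ x, (v (P.σ x) + h x) = 0 := integral_eq_zero_of_ae h0
    linarith
  -- the energy estimate
  have e0 : bf v v = -μ * ∫ x, v x ^ 2 := by
    unfold bf
    rw [← integral_const_mul]
    apply integral_congr_ae
    filter_upwards [hveq] with x hx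
    by_cases hxP : x ∈ P.pol A
    · rw [hx hxP]; ring
    · rw [hvP x hxP]; ring
  have e1 : bf (fun x => v (P.σ x)) (fun x => v (P.σ x)) = bf v v := by
    unfold bf
    rw [← P.int_comp (fun x => pot v x * v x)]
    congr 1
    ext x
    rw [P.pot_comp]
  have e2 : ∫ x, v (P.σ x) ^ 2 = ∫ x, v x ^ 2 := P.int_comp (fun x => v x ^ 2)
  have e3 := bf_expand hR hvσN hhN
  set ψ : ℂ → ℝ := fun x => (pot h x + μ * h x) * (h x + 2 * v (P.σ x)) with hψ
  have e4 : bf (fun x => v (P.σ x) + h x) (fun x => v (P.σ x) + h x)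
      + μ * ∫ x, (v (P.σ x) + h x) ^ 2 = ∫ x, ψ x := by
    have i1 := (hhN.int_bf hR hhN)
    have i2 := (hhN.int_bf hR hvσN)
    have i3 := hhN.int_mul hhN
    have i4 := hhN.int_mul hvσN
    have i5 := hvσN.int_sq
    have e5 : ∀ x, ψ x = (pot h x * h x + 2 * (pot h x * v (P.σ x)))
        + (μ * (h x * h x) + 2 * μ * (h x * v (P.σ x))) := by
      intro x; simp only [hψ]; ring
    have e6 : ∀ x, (v (P.σ x) + h x) ^ 2 = v (P.σ x) ^ 2 + (2 * (h x * v (P.σ x)) + h x * h x) := by
      intro x; ring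
    have j1 : Integrable (fun x => pot h x * h x + 2 * (pot h x * v (P.σ x))) := i1.add (i2.const_mul 2)
    have j2 : Integrable (fun x => μ * (h x * h x) + 2 * μ * (h x * v (P.σ x))) :=
      (i3.const_mul μ).add (i4.const_mul (2 * μ))
    have j3 : Integrable (fun x => 2 * (h x * v (P.σ x)) + h x * h x) := (i4.const_mul 2).add i3
    simp_rw [e5, e6]
    rw [integral_add j1 j2, integral_add i1 (i2.const_mul 2), integral_add (i3.const_mul μ) (i4.const_mul (2 * μ)),
      integral_add i5 j3, integral_add (i4.const_mul 2) i3, integral_const_mul, integral_const_mul,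
      integral_const_mul, integral_const_mul, e3, e1, e0, e2]
    unfold bf
    ring
  have e7 : ∫ x, ψ x < 0 := by
    have hψi : Integrable ψ := by
      have i1 := (hhN.int_bf hR hhN)
      have i2 := (hhN.int_bf hR hvσN)
      have i3 := hhN.int_mul hhN
      have i4 := hhN.int_mul hvσN
      have e5 : ψ = fun x => (pot h x * h x + 2 * (pot h x * v (P.σ x)))
          + (μ * (h x * h x) + 2 * μ * (h x * v (P.σ x))) := by
        ext x; simp only [hψ]; ring
      rw [e5]
      exact (i1.add (i2.const_mul 2)).add ((i3.const_mul μ).add (i4.const_mul (2 * μ)))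
    have hψσi : Integrable (fun x => ψ (P.σ x)) := P.σ_mp.integrable_comp_of_integrable hψi
    have key : ∀ᵐ x, 0 < P.s x → ψ x + ψ (P.σ x) ≤ 0 ∧
        (x ∈ (P.σ ⁻¹' A ∩ Aᶜ) ∩ P.H → ψ x + ψ (P.σ x) < 0) := by
      filter_upwards [hS_eq, hvpos, hvstr] with x h1 h2 h2' hxH
      have hgx := hgpos x hxH
      have e8 : ψ x + ψ (P.σ x) = 2 * (pot h x + μ * h x) * (h x + v (P.σ x) - v x) := by
        simp only [hψ]
        rw [hgodd, hhodd, P.σσ]; ring
      have hvσ0 : x ∉ S → v (P.σ x) = 0 := by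
        intro hxS
        apply hvP
        rw [P.mem_pol, P.σσ]
        rintro (⟨_, h3⟩ | ⟨⟨h3, h4⟩, _⟩)
        · exact hσH x hxH h3
        · exact hxS ⟨h4, h3⟩
      rw [e8]
      constructor
      · by_cases hxS : x ∈ S
        · rw [h1 hxS]
          apply le_of_eq; ring
        · rw [hoff x hxH hxS]
          rw [hvσ0 hxS]
          by_cases hxN : x ∈ N
          · simp only [hf]
            rw [indicator_of_mem hxN]
            apply le_of_eq; ring
          · simp only [hf]
            rw [indicator_of_notMem hxN]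
            nlinarith
      · intro hx
        have hxS : x ∉ S := fun h => hx.1.2 h.1
        have hxN : x ∉ N := fun h => hx.1.2 h.1.1
        rw [hoff x hxH hxS, hvσ0 hxS]
        simp only [hf]
        rw [indicator_of_notMem hxN]
        have hv : 0 < v x := h2' (by
          rw [P.mem_pol]
          have h3 : P.σ x ∈ A := hx.1.1
          tauto)
        have hg := hgstr x hxH
        nlinarith [mul_pos hg hv]
    have key1 : ∀ᵐ x, 0 < P.s x → ψ x + ψ (P.σ x) ≤ 0 := by
      filter_upwards [key] with x hx hxs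
      exact (hx hxs).1
    have key' := P.σ_mp.quasiMeasurePreserving.ae key1
    have hall : ∀ᵐ x, ψ x + ψ (P.σ x) ≤ 0 := by
      filter_upwards [key1, key', P.s_ne] with x h1 h2 h3
      rcases lt_or_gt_of_ne h3 with h4 | h4
      · have := h2 (by rw [P.s_σ]; linarith)
        rw [P.σσ] at this
        linarith
      · exact h1 h4
    have h5 : ∫ x, (ψ x + ψ (P.σ x)) < 0 := by
      refine lt_of_le_of_ne (integral_nonpos_of_ae hall) fun h0 => ?_
      have hnn : 0 ≤ᵐ[volume] fun x => -(ψ x + ψ (P.σ x)) := by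
        filter_upwards [hall] with x hx
        simp only [Pi.zero_apply]
        linarith
      have h6 : ∫ x, -(ψ x + ψ (P.σ x)) = 0 := by rw [integral_neg, h0, neg_zero]
      have h7 := (integral_eq_zero_iff_of_nonneg_ae hnn (hψi.add hψσi).neg).1 h6
      apply hV'
      have h8 : ∀ᵐ x, x ∉ (P.σ ⁻¹' A ∩ Aᶜ) ∩ P.H := by
        filter_upwards [h7, key] with x h1 h2 hx
        have h3 := (h2 hx.2).2 hx
        have h4 : -(ψ x + ψ (P.σ x)) = 0 := h1
        linarith
      exact measure_eq_zero_iff_ae_notMem.mpr h8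
    rw [integral_add hψi hψσi, P.int_comp ψ] at h5
    linarith
  have hU2 : 0 < ∫ x, (v (P.σ x) + h x) ^ 2 := by
    refine lt_of_le_of_ne (integral_nonneg fun x => sq_nonneg _) fun h0 => hu0 ?_
    have h1 := (integral_eq_zero_iff_of_nonneg (fun x => sq_nonneg (v (P.σ x) + h x))
      huN.int_sq).1 h0.symm
    filter_upwards [h1] with x hx
    have h2 : (v (P.σ x) + h x) ^ 2 = 0 := hx
    exact pow_eq_zero_iff (two_ne_zero) |>.1 h2
  set I := ∫ x, ψ x with hI
  set U2 := ∫ x, (v (P.σ x) + h x) ^ 2 with hU2d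
  have hq : I / U2 < 0 := div_neg_of_neg_of_pos e7 hU2
  have hq2 : (I / U2) * U2 = I := div_mul_cancel₀ _ hU2.ne'
  obtain ⟨l, hl, hle⟩ := eig_of_form hR hA (hA0.trans (Metric.ball_subset_ball (by
      have := le_abs_self R₀
      have := norm_nonneg (P.σ 0)
      linarith))) (μ := μ - I / U2) (by linarith) huN huA hu0 (by
      rw [← hU2d]
      have : -(μ - I / U2) * U2 = -μ * U2 + (I / U2) * U2 := by ring
      rw [this, hq2]
      linarith)
  exact ⟨l, by linarith, hle⟩

end Pool.Agent.KS6_23.LP
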