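import Pool.Agent.KS6_23.LP.LP13

set_option autoImplicit false

open MeasureTheory Set
open scoped Topology ENNReal NNReal RealInnerProductSpace

namespace Pool.Agent.KS6_23.LP

lemma IsEig.congr_ae {A B : Set ℂ} (h : A =ᵐ[volume] B) {l : ℝ} (hl : IsEig A l) : IsEig B l := by
  unfold IsEig at *
  rwa [Measure.restrict_congr_set h] at hl

lemma IsEig.reflect (P : HP) {A : Set ℂ} (hA : MeasurableSet A) (hb : Bornology.IsBounded A)
    {l : ℝ} (hl : IsEig A l) : IsEig (P.σ '' A) l := by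
  obtain ⟨R, hR⟩ := hb.subset_ball 0
  have hbσ : Bornology.IsBounded (P.σ '' A) := by
    have hc : Metric.closedBall (0:ℂ) R ⊇ A := hR.trans Metric.ball_subset_closedBall
    have h1 : Continuous P.σ := by
      have := P.s_cont
      unfold HP.σ
      fun_prop
    exact ((isCompact_closedBall (0:ℂ) R).image h1).isBounded.subset (image_mono hc)
  obtain ⟨R', hR'⟩ := hbσ.subset_ball 0
  have hm : MeasurableSet (P.σ '' A) := by rw [P.image_eq]; exact P.σ_meas hA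
  obtain ⟨v, h1, h2, h3, h4⟩ := (isEig_iff hA hR l).1 hl
  refine (isEig_iff hm hR' l).2 ⟨fun x => v (P.σ x), ⟨P.comp_mp h1.mem, ?_⟩, ?_, ?_, ?_⟩
  · intro x hx
    apply h2
    intro hxA
    have : x ∈ P.σ '' A := by rw [P.image_eq]; exact hxA
    have := hR' this
    rw [Metric.mem_ball, dist_zero_right] at this
    linarith
  · intro x hx
    apply h2
    intro hxA
    exact hx (by rw [P.image_eq]; exact hxA)
  · intro h0
    apply h3
    have := P.σ_mp.quasiMeasurePreserving.ae h0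
    filter_upwards [this] with x hx
    have h5 : v (P.σ (P.σ x)) = 0 := hx
    rw [P.σσ] at h5
    exact h5
  · have := P.σ_mp.quasiMeasurePreserving.ae h4
    filter_upwards [this] with x hx hxA
    rw [P.image_eq] at hxA
    rw [P.pot_comp]
    exact hx hxA

/-- if no point of the half-plane is gained then the polarization changes nothing -/
lemma pol_ae_self (P : HP) {A : Set ℂ} (h : volume ((P.σ ⁻¹' A ∩ Aᶜ) ∩ P.H) = 0) :
    P.pol A =ᵐ[volume] A := by
  have h1 : ∀ᵐ x, x ∉ (P.σ ⁻¹' A ∩ Aᶜ) ∩ P.H := measure_eq_zero_iff_ae_notMem.mp h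
  have h2 := P.σ_mp.quasiMeasurePreserving.ae h1
  filter_upwards [h1, h2, P.s_ne] with x g1 g2 g3
  apply propext
  change x ∈ P.pol A ↔ x ∈ A
  rw [P.mem_pol]
  have k1 : ¬ ((P.σ x ∈ A ∧ x ∉ A) ∧ 0 < P.s x) := g1
  have k2 : ¬ ((P.σ (P.σ x) ∈ A ∧ P.σ x ∉ A) ∧ 0 < P.s (P.σ x)) := g2
  rw [P.σσ, P.s_σ] at k2
  rcases lt_or_gt_of_ne g3 with h4 | h4
  · have h5 : 0 < - P.s x := by linarith
    have h6 : ¬ 0 < P.s x := by linarith
    tauto
  · tauto

/-- if all points of the half-plane have their reflection in `A` then the polarization is the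
reflection -/
lemma pol_ae_reflect (P : HP) {A : Set ℂ} (h : volume ((A ∩ (P.σ ⁻¹' A)ᶜ) ∩ P.H) = 0) :
    P.pol A =ᵐ[volume] P.σ '' A := by
  have h1 : ∀ᵐ x, x ∉ (A ∩ (P.σ ⁻¹' A)ᶜ) ∩ P.H := measure_eq_zero_iff_ae_notMem.mp h
  have h2 := P.σ_mp.quasiMeasurePreserving.ae h1
  filter_upwards [h1, h2, P.s_ne] with x g1 g2 g3
  apply propext
  change x ∈ P.pol A ↔ x ∈ P.σ '' A
  rw [P.mem_pol, P.image_eq]
  change _ ↔ P.σ x ∈ A
  have k1 : ¬ ((x ∈ A ∧ ¬ P.σ x ∈ A) ∧ 0 < P.s x) := g1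
  have k2 : ¬ ((P.σ x ∈ A ∧ ¬ P.σ (P.σ x) ∈ A) ∧ 0 < P.s (P.σ x)) := g2
  rw [P.σσ, P.s_σ] at k2
  rcases lt_or_gt_of_ne g3 with h4 | h4
  · have h5 : 0 < - P.s x := by linarith
    have h6 : ¬ 0 < P.s x := by linarith
    tauto
  · tauto

end Pool.Agent.KS6_23.LP
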