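import Pool.Agent.KS6_23.LP.LP1

set_option autoImplicit false

open MeasureTheory Set
open scoped Topology ENNReal NNReal

namespace Pool.Agent.KS6_23.LP

/-- circle averages of potentials -/
lemma Nice.circ {R : ℝ} (hR : 0 < R) {u : ℂ → ℝ} (hu : Nice R u) (c : ℂ) {r : ℝ} (hr : 0 < r) :
    Real.circleAverage (pot u) c r
      = ∫ y, -(Real.log r + Real.posLog (r⁻¹ * ‖c - y‖)) * u y := by
  have hpi : (0:ℝ) ≤ 2 * Real.pi := by positivity
  rw [Real.circleAverage_def]
  unfold pot
  have hint : Integrable (Function.uncurry (fun θ y => lk (circleMap c r θ) y * u y))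
      ((volume.restrict (Ioc 0 (2 * Real.pi))).prod volume) := by
    have hm : AEStronglyMeasurable (Function.uncurry (fun θ y => lk (circleMap c r θ) y * u y))
        ((volume.restrict (Ioc 0 (2 * Real.pi))).prod volume) := by
      apply AEStronglyMeasurable.mul
      · apply Measurable.aestronglyMeasurable
        have hc : Measurable (fun θ => circleMap c r θ) := (continuous_circleMap c r).measurable
        unfold lk
        fun_prop
      · exact hu.mem.1.comp_snd
    rw [integrable_prod_iff hm]
    constructor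
    · refine Filter.Eventually.of_forall fun θ => ?_
      exact hu.int hR (circleMap c r θ)
    · have hfin : IsFiniteMeasure (volume.restrict (Ioc (0:ℝ) (2 * Real.pi))) :=
        ⟨by rw [Measure.restrict_apply_univ]; exact measure_Ioc_lt_top⟩
      refine Integrable.of_bound (C := Real.pi * (‖c‖ + r + R) ^ 2 * R ^ 2 + 8 * Real.pi * (‖c‖ + r + R)
        + ∫ y, u y ^ 2) hm.norm.integral_prod_right' ?_
      refine Filter.Eventually.of_forall fun θ => ?_
      have hn : ‖circleMap c r θ‖ ≤ ‖c‖ + r := by
        have h1 : ‖circleMap c r θ - c‖ = r := by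
          simp [circleMap, abs_of_pos hr]
        calc ‖circleMap c r θ‖ = ‖c + (circleMap c r θ - c)‖ := by congr 1; ring
          _ ≤ ‖c‖ + ‖circleMap c r θ - c‖ := norm_add_le _ _
          _ = ‖c‖ + r := by rw [h1]
      rw [Real.norm_eq_abs, abs_of_nonneg (integral_nonneg fun y => norm_nonneg _)]
      have h5 := hu.pot_abs hR (circleMap c r θ)
      change ∫ y, |lk (circleMap c r θ) y * u y| ≤ _
      refine h5.trans ?_
      have := norm_nonneg (circleMap c r θ)
      gcongr
  rw [intervalIntegral.integral_of_le hpi, integral_integral_swap hint, ← integral_smul]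
  congr 1
  ext y
  rw [integral_mul_const, ← intervalIntegral.integral_of_le hpi, smul_eq_mul, ← mul_assoc]
  congr 1
  have h1 := circleAverage_log_norm_sub_const_eq_log_radius_add_posLog (a := y) (c := c) hr.ne'
  rw [Real.circleAverage_def, smul_eq_mul] at h1
  rw [← h1]
  unfold lk
  rw [intervalIntegral.integral_neg]
  ring

/-- super-mean value inequality -/
lemma Nice.supermean {R : ℝ} (hR : 0 < R) {u : ℂ → ℝ} (hu : Nice R u) (c : ℂ) {r : ℝ} (hr : 0 < r)
    (hpos : ∀ᵐ y, y ∈ Metric.ball c r → 0 ≤ u y) :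
    Real.circleAverage (pot u) c r ≤ pot u c := by
  rw [hu.circ hR c hr]
  unfold pot
  have hI : Integrable (fun y => -(Real.log r + Real.posLog (r⁻¹ * ‖c - y‖)) * u y) := by
    have hcb : ContinuousOn (fun y => -(Real.log r + Real.posLog (r⁻¹ * ‖c - y‖))) (Metric.closedBall (0:ℂ) R) := by
      apply Continuous.continuousOn
      have := Real.continuous_posLog
      fun_prop
    obtain ⟨M, hM⟩ := (isCompact_closedBall (0:ℂ) R).exists_bound_of_continuousOn hcb
    refine (hu.integrable.norm.const_mul M).mono' ?_ ?_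
    · apply AEStronglyMeasurable.mul
      · have : Continuous (fun y : ℂ => -(Real.log r + Real.posLog (r⁻¹ * ‖c - y‖))) := by
          have := Real.continuous_posLog
          fun_prop
        exact this.aestronglyMeasurable
      · exact hu.mem.1
    · refine Filter.Eventually.of_forall fun y => ?_
      by_cases hy : R ≤ ‖y‖
      · rw [hu.van y hy]; simp
      · rw [norm_mul]
        exact mul_le_mul_of_nonneg_right (hM y (by simpa using (not_le.mp hy).le)) (norm_nonneg _)
  apply integral_mono_ae hI (hu.int hR c)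
  have n1 : ∀ᵐ y : ℂ, y ≠ c := by
    rw [ae_iff]; simp
  filter_upwards [hpos, n1] with y hy hyc
  have p1 : 0 < ‖c - y‖ := norm_pos_iff.mpr (sub_ne_zero.mpr hyc.symm)
  by_cases hb : y ∈ Metric.ball c r
  · apply mul_le_mul_of_nonneg_right _ (hy hb)
    rw [Metric.mem_ball, dist_eq_norm, norm_sub_rev] at hb
    have h1 : 0 ≤ Real.posLog (r⁻¹ * ‖c - y‖) := Real.posLog_nonneg
    have h2 := Real.log_le_log p1 hb.le
    unfold lk
    linarith
  · apply le_of_eq
    congr 1
    rw [Metric.mem_ball, dist_eq_norm, norm_sub_rev, not_lt] at hb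
    unfold lk
    rw [Real.posLog_eq_log]
    · rw [Real.log_mul (inv_ne_zero hr.ne') p1.ne', Real.log_inv]
      ring
    · rw [abs_of_pos (by positivity), inv_mul_eq_div, le_div_iff₀ hr]
      linarith

/-- the maximum principle used throughout: `g = pot h` is nonnegative on `U` provided it is
asymptotically nonnegative at the boundary of `U` and at infinity and `h ≥ 0` where `g < 0` -/
theorem Nice.maxp {R : ℝ} (hR : 0 < R) {h : ℂ → ℝ} (hh : Nice R h) {U : Set ℂ} (hU : IsOpen U)
    (hb : ∀ m < 0, IsCompact {x ∈ closure U | pot h x ≤ m} ∧ {x ∈ closure U | pot h x ≤ m} ⊆ U)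
    (hs : ∀ᵐ y, y ∈ U → pot h y < 0 → 0 ≤ h y) : ∀ x ∈ U, 0 ≤ pot h x := by
  intro x₁ hx₁
  by_contra hneg
  push Not at hneg
  have hc := hh.continuous hR
  obtain ⟨hC, hCU⟩ := hb (pot h x₁) hneg
  obtain ⟨x₂, hx₂, hmin⟩ := hC.exists_isMinOn ⟨x₁, subset_closure hx₁, le_rfl⟩ hc.continuousOn
  set m := pot h x₂ with hm
  have hm0 : m < 0 := lt_of_le_of_lt hx₂.2 hneg
  have hmin' : ∀ x ∈ closure U, m ≤ pot h x := by
    intro x hx
    by_cases hle : pot h x ≤ pot h x₁
    · exact hmin ⟨hx, hle⟩
    · exact hx₂.2.trans (le_of_not_ge hle)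
  obtain ⟨hZ, hZU⟩ := hb m hm0
  obtain ⟨x₃, hx₃, hmax⟩ := hZ.exists_isMaxOn ⟨x₂, hx₂.1, le_rfl⟩ Complex.continuous_re.continuousOn
  have hx₃m : pot h x₃ = m := le_antisymm hx₃.2 (hmin' x₃ hx₃.1)
  have hopen : IsOpen (U ∩ {x | pot h x < 0}) := hU.inter (isOpen_lt hc continuous_const)
  obtain ⟨r₀, hr₀, hball⟩ := Metric.isOpen_iff.mp hopen x₃ ⟨hZU hx₃, by
    change pot h x₃ < 0; rw [hx₃m]; exact hm0⟩
  set r := r₀ / 2 with hr
  have hrp : 0 < r := by positivity
  have hcb : Metric.closedBall x₃ r ⊆ U ∩ {x | pot h x < 0} :=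
    (Metric.closedBall_subset_ball (by linarith)).trans hball
  have h1 : Real.circleAverage (pot h) x₃ r ≤ m := by
    rw [← hx₃m]
    apply hh.supermean hR x₃ hrp
    filter_upwards [hs] with y hy hyb
    have := hcb (Metric.ball_subset_closedBall hyb)
    exact hy this.1 this.2
  -- strict inequality
  have hcm : ∀ θ, circleMap x₃ r θ ∈ Metric.closedBall x₃ r := fun θ =>
    circleMap_mem_closedBall x₃ hrp.le θ
  have h2 : m < Real.circleAverage (pot h) x₃ r := by
    rw [Real.circleAverage_def, smul_eq_mul]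
    have hpi : (0:ℝ) < 2 * Real.pi := by positivity
    have h3 : ∫ _ in (0:ℝ)..(2 * Real.pi), m < ∫ θ in (0:ℝ)..(2 * Real.pi), pot h (circleMap x₃ r θ) := by
      apply intervalIntegral.integral_lt_integral_of_continuousOn_of_le_of_exists_lt hpi
        continuousOn_const (hc.comp (continuous_circleMap x₃ r)).continuousOn
      · intro θ _
        exact hmin' _ (subset_closure (hcb (hcm θ)).1)
      · refine ⟨0, ⟨le_rfl, hpi.le⟩, ?_⟩
        have h4 : m ≤ pot h (circleMap x₃ r 0) := hmin' _ (subset_closure (hcb (hcm 0)).1)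
        rcases h4.eq_or_lt with h5 | h5
        · exfalso
          have h6 : circleMap x₃ r 0 ∈ {x ∈ closure U | pot h x ≤ m} :=
            ⟨subset_closure (hcb (hcm 0)).1, h5.symm.le⟩
          have h7 := hmax h6
          simp [circleMap] at h7
          linarith
        · exact h5
    rw [intervalIntegral.integral_const, smul_eq_mul, sub_zero] at h3
    rw [← div_eq_inv_mul, lt_div_iff₀ hpi]
    linarith
  linarith

end Pool.Agent.KS6_23.LP
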