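import Pool.Agent.KS6_23.LP.LP2

set_option autoImplicit false

open MeasureTheory Set
open scoped Topology ENNReal NNReal

namespace Pool.Agent.KS6_23.LP

/-- the energy form -/
noncomputable def bf (u v : ℂ → ℝ) : ℝ := ∫ x, pot u x * v x

lemma Nice.mono {R R' : ℝ} {u : ℂ → ℝ} (hu : Nice R u) (h : R ≤ R') : Nice R' u :=
  ⟨hu.mem, fun x hx => hu.van x (h.trans hx)⟩

lemma Nice.int_prod {R : ℝ} (hR : 0 < R) {u v : ℂ → ℝ} (hu : Nice R u) (hv : Nice R v) :
    Integrable (fun p : ℂ × ℂ => lk p.1 p.2 * u p.2 * v p.1) (volume.prod volume) := by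
  have hm : AEStronglyMeasurable (fun p : ℂ × ℂ => lk p.1 p.2 * u p.2 * v p.1)
      ((volume : Measure ℂ).prod volume) := by
    apply AEStronglyMeasurable.mul
    · apply AEStronglyMeasurable.mul
      · apply Measurable.aestronglyMeasurable
        unfold lk
        fun_prop
      · exact hu.mem.1.comp_snd
    · exact hv.mem.1.comp_fst
  rw [integrable_prod_iff hm]
  constructor
  · refine Filter.Eventually.of_forall fun x => ?_
    exact (hu.int hR x).mul_const (v x)
  · refine (hv.integrable.norm.const_mul (Real.pi * (R + R) ^ 2 * R ^ 2 + 8 * Real.pi * (R + R)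
        + ∫ y, u y ^ 2)).mono' hm.norm.integral_prod_right' ?_
    refine Filter.Eventually.of_forall fun x => ?_
    rw [Real.norm_eq_abs, abs_of_nonneg (integral_nonneg fun y => norm_nonneg _)]
    have e : ∀ y, ‖lk x y * u y * v x‖ = |lk x y * u y| * ‖v x‖ := by
      intro y; rw [norm_mul, Real.norm_eq_abs (lk x y * u y)]
    change ∫ y, ‖lk x y * u y * v x‖ ≤ _
    simp_rw [e]
    rw [integral_mul_const]
    by_cases hx : R ≤ ‖x‖
    · rw [hv.van x hx]; simp
    · apply mul_le_mul_of_nonneg_right _ (norm_nonneg _)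
      refine (hu.pot_abs hR x).trans ?_
      have := norm_nonneg x
      push Not at hx
      gcongr

lemma Nice.bf_prod {R : ℝ} (hR : 0 < R) {u v : ℂ → ℝ} (hu : Nice R u) (hv : Nice R v) :
    bf u v = ∫ p : ℂ × ℂ, lk p.1 p.2 * u p.2 * v p.1 ∂(volume.prod volume) := by
  rw [integral_prod _ (hu.int_prod hR hv)]
  unfold bf pot
  congr 1
  ext x
  exact (integral_mul_const _ _).symm

lemma Nice.bf_comm {R : ℝ} (hR : 0 < R) {u v : ℂ → ℝ} (hu : Nice R u) (hv : Nice R v) :
    bf u v = bf v u := by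
  rw [hu.bf_prod hR hv, hv.bf_prod hR hu, ← integral_prod_swap]
  congr 1
  ext p
  simp only [Prod.fst_swap, Prod.snd_swap]
  rw [lk_comm]
  ring

lemma exp_diff_bound {a t : ℝ} (ha : 0 < a) (ht : 0 < t) :
    |t⁻¹ * (Real.exp (-(a * t)) - Real.exp (-(1 * t)))| ≤ |a - 1| * Real.exp (-(min a 1) * t) := by
  have key : ∀ c d : ℝ, 0 < c → c ≤ d →
      |t⁻¹ * (Real.exp (-(c * t)) - Real.exp (-(d * t)))| ≤ (d - c) * Real.exp (-c * t) := by
    intro c d hc hcd
    have h1 : Real.exp (-(d * t)) ≤ Real.exp (-(c * t)) := Real.exp_le_exp.mpr (by nlinarith)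
    rw [abs_of_nonneg (mul_nonneg (inv_pos.mpr ht).le (by linarith))]
    have h2 : Real.exp (-(d * t)) = Real.exp (-(c * t)) * Real.exp (-((d - c) * t)) := by
      rw [← Real.exp_add]; congr 1; ring
    have h3 := Real.add_one_le_exp (-((d - c) * t))
    have h4 := Real.exp_pos (-(c * t))
    rw [h2, ← div_eq_inv_mul, div_le_iff₀ ht]
    have h5 : Real.exp (-c * t) = Real.exp (-(c * t)) := by congr 1; ring
    rw [h5]
    nlinarith
  rcases le_total a 1 with h | h
  · have := key a 1 ha h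
    rw [min_eq_left h, abs_sub_comm a 1, abs_of_nonneg (by linarith : 0 ≤ 1 - a)]
    exact this
  · have := key 1 a one_pos h
    rw [min_eq_right h, abs_of_nonneg (by linarith : 0 ≤ a - 1)]
    rw [← abs_neg, ← mul_neg, neg_sub]
    exact this

/-- Frullani -/
lemma frul {a : ℝ} (ha : 0 < a) :
    IntegrableOn (fun t : ℝ => t⁻¹ * (Real.exp (-(a * t)) - Real.exp (-(1 * t)))) (Ioi 0) ∧
    ∫ t in Ioi (0:ℝ), t⁻¹ * (Real.exp (-(a * t)) - Real.exp (-(1 * t))) = -Real.log a ∧
    ∫ t in Ioi (0:ℝ), |t⁻¹ * (Real.exp (-(a * t)) - Real.exp (-(1 * t)))| = |Real.log a| := by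
  have hmin : 0 < min a 1 := lt_min ha one_pos
  have hI : IntegrableOn (fun t : ℝ => t⁻¹ * (Real.exp (-(a * t)) - Real.exp (-(1 * t)))) (Ioi 0) := by
    refine Integrable.mono' ((exp_neg_integrableOn_Ioi 0 hmin).const_mul |a - 1|) ?_ ?_
    · exact (by fun_prop : Measurable (fun t : ℝ => t⁻¹ * (Real.exp (-(a * t)) - Real.exp (-(1 * t))))).aestronglyMeasurable
    · filter_upwards [ae_restrict_mem measurableSet_Ioi] with t ht
      exact exp_diff_bound ha ht
  have hV : ∫ t in Ioi (0:ℝ), t⁻¹ * (Real.exp (-(a * t)) - Real.exp (-(1 * t))) = -Real.log a := by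
    have h := Frullani.integral_Ioi_eq (f := fun t : ℝ => Real.exp (-t)) (a := a) (b := 1) (L := 1) (R := 0)
      (Continuous.locallyIntegrable (by fun_prop) |>.locallyIntegrableOn _) ha one_pos
      (by
        have : Continuous (fun t : ℝ => Real.exp (-t)) := by fun_prop
        have := (this.tendsto 0).mono_left (nhdsWithin_le_nhds (s := Ioi 0))
        simpa using this)
      Real.tendsto_exp_neg_atTop_nhds_zero (by simpa only [smul_eq_mul] using hI)
    simp only [smul_eq_mul] at h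
    rw [h, one_div, Real.log_inv]
    ring
  refine ⟨hI, hV, ?_⟩
  rcases le_total a 1 with h | h
  · rw [abs_of_nonpos (Real.log_nonpos ha.le h), ← hV]
    apply setIntegral_congr_fun measurableSet_Ioi
    intro t ht
    have h1 : Real.exp (-(1 * t)) ≤ Real.exp (-(a * t)) :=
      Real.exp_le_exp.mpr (by nlinarith [mem_Ioi.mp ht])
    exact abs_of_nonneg (mul_nonneg (inv_pos.mpr ht).le (by linarith))
  · rw [abs_of_nonneg (Real.log_nonneg h), ← neg_eq_iff_eq_neg.mpr hV, ← integral_neg]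
    apply setIntegral_congr_fun measurableSet_Ioi
    intro t ht
    have h1 : Real.exp (-(a * t)) ≤ Real.exp (-(1 * t)) :=
      Real.exp_le_exp.mpr (by nlinarith [mem_Ioi.mp ht])
    exact abs_of_nonpos (mul_nonpos_of_nonneg_of_nonpos (inv_pos.mpr ht).le (by linarith))

/-- Gaussian convolution identity -/
lemma gauss_conv {t : ℝ} (ht : 0 < t) (x y : ℂ) :
    Integrable (fun z : ℂ => Real.exp (-(2 * t) * ‖z - x‖ ^ 2) * Real.exp (-(2 * t) * ‖z - y‖ ^ 2)) ∧
    ∫ z : ℂ, Real.exp (-(2 * t) * ‖z - x‖ ^ 2) * Real.exp (-(2 * t) * ‖z - y‖ ^ 2)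
      = Real.pi / (4 * t) * Real.exp (-t * ‖x - y‖ ^ 2) := by
  have e : ∀ z : ℂ, Real.exp (-(2 * t) * ‖z - x‖ ^ 2) * Real.exp (-(2 * t) * ‖z - y‖ ^ 2)
      = Real.exp (-t * ‖x - y‖ ^ 2) * Real.exp (-(4 * t) * ‖z - (x + y) / 2‖ ^ 2) := by
    intro z
    rw [← Real.exp_add, ← Real.exp_add]
    congr 1
    have h1 : ‖z - x‖ ^ 2 + ‖z - y‖ ^ 2 = 2 * ‖z - (x + y) / 2‖ ^ 2 + ‖x - y‖ ^ 2 / 2 := by
      simp only [Complex.sq_norm, Complex.normSq_apply, Complex.sub_re, Complex.sub_im,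
        Complex.div_ofNat_re, Complex.div_ofNat_im, Complex.add_re, Complex.add_im]
      ring
    nlinarith
  simp_rw [e]
  have hI : Integrable (fun z : ℂ => Real.exp (-(4 * t) * ‖z‖ ^ 2)) := by
    have h := GaussianFourier.integral_rexp_neg_mul_sq_norm (V := ℂ) (b := 4 * t) (by positivity)
    by_contra hcon
    rw [integral_undef hcon] at h
    have : 0 < (Real.pi / (4 * t)) ^ (Module.finrank ℝ ℂ / 2 : ℝ) := by positivity
    linarith
  constructor
  · exact (hI.comp_sub_right ((x + y) / 2)).const_mul _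
  · rw [integral_const_mul, integral_sub_right_eq_self (fun z : ℂ => Real.exp (-(4 * t) * ‖z‖ ^ 2)),
      GaussianFourier.integral_rexp_neg_mul_sq_norm (by positivity)]
    rw [Complex.finrank_real_complex]
    norm_num
    ring

/-- the Gaussian kernel is positive definite -/
lemma gauss_pos {u : ℂ → ℝ} (hu : Integrable u) {t : ℝ} (ht : 0 < t) :
    0 ≤ ∫ p : ℂ × ℂ, Real.exp (-t * ‖p.1 - p.2‖ ^ 2) * (u p.1 * u p.2) ∂(volume.prod volume) := by
  set G : ℂ × ℂ → ℂ → ℝ := fun p z =>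
    (Real.exp (-(2 * t) * ‖z - p.1‖ ^ 2) * u p.1) * (Real.exp (-(2 * t) * ‖z - p.2‖ ^ 2) * u p.2) with hG
  have hmu : AEStronglyMeasurable (fun q : (ℂ × ℂ) × ℂ => u q.1.1)
      (((volume : Measure ℂ).prod (volume : Measure ℂ)).prod (volume : Measure ℂ)) :=
    (hu.1.comp_fst).comp_fst
  have hmu2 : AEStronglyMeasurable (fun q : (ℂ × ℂ) × ℂ => u q.1.2)
      (((volume : Measure ℂ).prod (volume : Measure ℂ)).prod (volume : Measure ℂ)) :=
    (hu.1.comp_snd).comp_fst
  have hm : AEStronglyMeasurable (Function.uncurry G)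
      (((volume : Measure ℂ).prod (volume : Measure ℂ)).prod (volume : Measure ℂ)) := by
    have e : Function.uncurry G = fun q : (ℂ × ℂ) × ℂ =>
      (Real.exp (-(2 * t) * ‖q.2 - q.1.1‖ ^ 2) * u q.1.1) * (Real.exp (-(2 * t) * ‖q.2 - q.1.2‖ ^ 2) * u q.1.2) := by
      ext q; rfl
    rw [e]
    apply AEStronglyMeasurable.mul
    · apply AEStronglyMeasurable.mul _ hmu
      exact (by fun_prop : Measurable (fun q : (ℂ × ℂ) × ℂ =>
        Real.exp (-(2 * t) * ‖q.2 - q.1.1‖ ^ 2))).aestronglyMeasurable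
    · apply AEStronglyMeasurable.mul _ hmu2
      exact (by fun_prop : Measurable (fun q : (ℂ × ℂ) × ℂ =>
        Real.exp (-(2 * t) * ‖q.2 - q.1.2‖ ^ 2))).aestronglyMeasurable
  have hGe : ∀ p z, G p z = (u p.1 * u p.2) *
      (Real.exp (-(2 * t) * ‖z - p.1‖ ^ 2) * Real.exp (-(2 * t) * ‖z - p.2‖ ^ 2)) := by
    intro p z; simp only [hG]; ring
  have hGi : ∀ p, ∫ z, G p z = Real.pi / (4 * t) * (Real.exp (-t * ‖p.1 - p.2‖ ^ 2) * (u p.1 * u p.2)) := by
    intro p
    simp_rw [hGe]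
    rw [integral_const_mul, (gauss_conv ht p.1 p.2).2]
    ring
  have hI : Integrable (Function.uncurry G)
      (((volume : Measure ℂ).prod (volume : Measure ℂ)).prod (volume : Measure ℂ)) := by
    rw [integrable_prod_iff hm]
    constructor
    · refine Filter.Eventually.of_forall fun p => ?_
      change Integrable (fun z => G p z)
      simp_rw [hGe]
      exact (gauss_conv ht p.1 p.2).1.const_mul _
    · have hb : Integrable (fun p : ℂ × ℂ => Real.pi / (4 * t) * (‖u p.1‖ * ‖u p.2‖))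
        ((volume : Measure ℂ).prod (volume : Measure ℂ)) := (hu.norm.mul_prod hu.norm).const_mul _
      refine hb.mono' hm.norm.integral_prod_right' ?_
      refine Filter.Eventually.of_forall fun p => ?_
      rw [Real.norm_eq_abs, abs_of_nonneg (integral_nonneg fun y => norm_nonneg _)]
      change ∫ z, ‖G p z‖ ≤ _
      have e : ∀ z, ‖G p z‖ = ‖u p.1 * u p.2‖ *
          (Real.exp (-(2 * t) * ‖z - p.1‖ ^ 2) * Real.exp (-(2 * t) * ‖z - p.2‖ ^ 2)) := by
        intro z
        rw [hGe, norm_mul]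
        congr 1
        exact Real.norm_of_nonneg (by positivity)
      simp_rw [e]
      rw [integral_const_mul, (gauss_conv ht p.1 p.2).2, norm_mul]
      have h1 : Real.exp (-t * ‖p.1 - p.2‖ ^ 2) ≤ 1 := by
        apply Real.exp_le_one_iff.mpr
        nlinarith [sq_nonneg ‖p.1 - p.2‖]
      calc ‖u p.1‖ * ‖u p.2‖ * (Real.pi / (4 * t) * Real.exp (-t * ‖p.1 - p.2‖ ^ 2))
          ≤ ‖u p.1‖ * ‖u p.2‖ * (Real.pi / (4 * t) * 1) := by gcongr
        _ = _ := by ring
  have hswap := integral_integral_swap hI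
  have h1 : ∫ p : ℂ × ℂ, ∫ z, G p z ∂volume ∂(volume.prod volume)
      = Real.pi / (4 * t) * ∫ p : ℂ × ℂ, Real.exp (-t * ‖p.1 - p.2‖ ^ 2) * (u p.1 * u p.2) ∂(volume.prod volume) := by
    simp_rw [hGi]
    rw [integral_const_mul]
  have h2 : ∀ z, ∫ p : ℂ × ℂ, G p z ∂(volume.prod volume)
      = (∫ x, Real.exp (-(2 * t) * ‖z - x‖ ^ 2) * u x) ^ 2 := by
    intro z
    simp only [hG]
    rw [integral_prod_mul (fun x => Real.exp (-(2 * t) * ‖z - x‖ ^ 2) * u x)
      (fun x => Real.exp (-(2 * t) * ‖z - x‖ ^ 2) * u x), sq]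
  rw [h1] at hswap
  simp_rw [h2] at hswap
  have h3 : 0 ≤ ∫ z : ℂ, (∫ x, Real.exp (-(2 * t) * ‖z - x‖ ^ 2) * u x) ^ 2 :=
    integral_nonneg fun z => sq_nonneg _
  rw [← hswap] at h3
  have h4 : 0 < Real.pi / (4 * t) := by positivity
  exact nonneg_of_mul_nonneg_right h3 h4

/-- the logarithmic energy is nonnegative on mean zero functions -/
theorem Nice.pos {R : ℝ} (hR : 0 < R) {u : ℂ → ℝ} (hu : Nice R u) (h0 : ∫ x, u x = 0) : 0 ≤ bf u u := by
  have hprod := hu.int_prod hR hu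
  set F : ℝ → ℂ × ℂ → ℝ := fun t p =>
    (t⁻¹ * (Real.exp (-(‖p.1 - p.2‖ ^ 2 * t)) - Real.exp (-(1 * t)))) * (u p.1 * u p.2) with hF
  have hne : ∀ᵐ p : ℂ × ℂ ∂((volume : Measure ℂ).prod volume), 0 < ‖p.1 - p.2‖ ^ 2 := by
    rw [Measure.ae_prod_iff_ae_ae]
    · refine Filter.Eventually.of_forall fun x => ?_
      have : ∀ᵐ y : ℂ, y ≠ x := by rw [ae_iff]; simp
      filter_upwards [this] with y hy
      have : 0 < ‖x - y‖ := norm_pos_iff.mpr (sub_ne_zero.mpr hy.symm)
      positivity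
    · exact measurableSet_lt measurable_const (by fun_prop)
  have hmu : AEStronglyMeasurable (fun p : ℂ × ℂ => u p.1 * u p.2) ((volume : Measure ℂ).prod volume) :=
    hu.mem.1.comp_fst.mul hu.mem.1.comp_snd
  have hm : AEStronglyMeasurable (Function.uncurry F)
      ((volume.restrict (Ioi (0:ℝ))).prod ((volume : Measure ℂ).prod (volume : Measure ℂ))) := by
    have e : Function.uncurry F = fun q : ℝ × (ℂ × ℂ) =>
      (q.1⁻¹ * (Real.exp (-(‖q.2.1 - q.2.2‖ ^ 2 * q.1)) - Real.exp (-(1 * q.1)))) * (u q.2.1 * u q.2.2) := by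
      ext q; rfl
    rw [e]
    apply AEStronglyMeasurable.mul
    · exact (by fun_prop : Measurable (fun q : ℝ × (ℂ × ℂ) =>
        q.1⁻¹ * (Real.exp (-(‖q.2.1 - q.2.2‖ ^ 2 * q.1)) - Real.exp (-(1 * q.1))))).aestronglyMeasurable
    · exact hmu.comp_snd
  have hlog : ∀ p : ℂ × ℂ, Real.log (‖p.1 - p.2‖ ^ 2) = -(2 * lk p.1 p.2) := by
    intro p
    unfold lk
    rw [Real.log_pow]
    push_cast
    ring
  have hI : Integrable (Function.uncurry F)
      ((volume.restrict (Ioi (0:ℝ))).prod ((volume : Measure ℂ).prod (volume : Measure ℂ))) := by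
    rw [integrable_prod_iff' hm]
    constructor
    · filter_upwards [hne] with p hp
      exact (frul hp).1.mul_const (u p.1 * u p.2)
    · have h1 : Integrable (fun p : ℂ × ℂ => 2 * ‖lk p.1 p.2 * u p.2 * u p.1‖)
        ((volume : Measure ℂ).prod (volume : Measure ℂ)) := hprod.norm.const_mul 2
      refine h1.congr ?_
      filter_upwards [hne] with p hp
      have e : ∀ t, ‖Function.uncurry F (t, p)‖ = |t⁻¹ * (Real.exp (-(‖p.1 - p.2‖ ^ 2 * t)) - Real.exp (-(1 * t)))|
        * ‖u p.1 * u p.2‖ := by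
        intro t
        change ‖F t p‖ = _
        simp only [hF]
        rw [norm_mul, Real.norm_eq_abs (_ * _)]
      simp_rw [e]
      rw [integral_mul_const, (frul hp).2.2, hlog, abs_neg, abs_mul, abs_two, norm_mul, norm_mul,
        norm_mul, Real.norm_eq_abs (lk _ _)]
      ring
  have hswap := integral_integral_swap hI
  have h1 : ∀ᵐ p : ℂ × ℂ ∂((volume : Measure ℂ).prod volume),
      ∫ t in Ioi (0:ℝ), F t p = 2 * (lk p.1 p.2 * u p.2 * u p.1) := by
    filter_upwards [hne] with p hp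
    simp only [hF]
    rw [integral_mul_const, (frul hp).2.1, hlog]
    ring
  have h2 : ∫ p : ℂ × ℂ, ∫ t in Ioi (0:ℝ), F t p ∂volume ∂((volume : Measure ℂ).prod volume) = 2 * bf u u := by
    rw [integral_congr_ae h1, integral_const_mul, ← hu.bf_prod hR hu]
  rw [← hswap] at h2
  have hu1 := hu.integrable
  have hpi : Integrable (fun p : ℂ × ℂ => u p.1 * u p.2) ((volume : Measure ℂ).prod volume) :=
    hu1.mul_prod hu1
  have h3 : 0 ≤ ∫ t in Ioi (0:ℝ), ∫ p : ℂ × ℂ, F t p ∂(volume.prod volume) := by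
    apply setIntegral_nonneg measurableSet_Ioi
    intro t ht
    have ht' : 0 < t := ht
    have e : ∀ p : ℂ × ℂ, F t p = t⁻¹ * (Real.exp (-t * ‖p.1 - p.2‖ ^ 2) * (u p.1 * u p.2))
        - t⁻¹ * Real.exp (-(1 * t)) * (u p.1 * u p.2) := by
      intro p
      simp only [hF]
      have : -(‖p.1 - p.2‖ ^ 2 * t) = -t * ‖p.1 - p.2‖ ^ 2 := by ring
      rw [this]
      ring
    simp_rw [e]
    have hgi : Integrable (fun p : ℂ × ℂ => Real.exp (-t * ‖p.1 - p.2‖ ^ 2) * (u p.1 * u p.2))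
        ((volume : Measure ℂ).prod volume) := by
      refine hpi.norm.mono' ?_ ?_
      · apply AEStronglyMeasurable.mul _ hmu
        exact (by fun_prop : Measurable (fun p : ℂ × ℂ => Real.exp (-t * ‖p.1 - p.2‖ ^ 2))).aestronglyMeasurable
      · refine Filter.Eventually.of_forall fun p => ?_
        have h1 : Real.exp (-t * ‖p.1 - p.2‖ ^ 2) ≤ 1 := by
          apply Real.exp_le_one_iff.mpr
          nlinarith [sq_nonneg ‖p.1 - p.2‖]
        rw [norm_mul, Real.norm_of_nonneg (Real.exp_pos _).le]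
        nlinarith [norm_nonneg (u p.1 * u p.2)]
    rw [integral_sub (hgi.const_mul _) (hpi.const_mul _), integral_const_mul, integral_const_mul,
      integral_prod_mul u u, h0]
    have := gauss_pos hu1 ht'
    have h5 : 0 < t⁻¹ := inv_pos.mpr ht'
    nlinarith
  linarith

end Pool.Agent.KS6_23.LP
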