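import Pool.Agent.KS6_23.LP.LP3
import Pool.Agent.KS6_23.LP.LP4

set_option autoImplicit false

open MeasureTheory Set
open scoped Topology ENNReal NNReal RealInnerProductSpace

namespace Pool.Agent.KS6_23.LP

/-- Cauchy–Schwarz for functions -/
lemma cs2 {α : Type*} [MeasurableSpace α] {ν : Measure α} {f g : α → ℝ} (hf : MemLp f 2 ν)
    (hg : MemLp g 2 ν) : |∫ x, f x * g x ∂ν| ≤ Real.sqrt (∫ x, f x ^ 2 ∂ν) * Real.sqrt (∫ x, g x ^ 2 ∂ν) := by
  have key : ∀ {f g : α → ℝ} (hf : MemLp f 2 ν) (hg : MemLp g 2 ν),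
      ⟪hf.toLp f, hg.toLp g⟫ = ∫ x, f x * g x ∂ν := by
    intro f g hf hg
    rw [L2.inner_def]
    apply integral_congr_ae
    filter_upwards [hf.coeFn_toLp, hg.coeFn_toLp] with x h1 h2
    rw [h1, h2]
    simp [mul_comm]
  have hn : ∀ {f : α → ℝ} (hf : MemLp f 2 ν), ‖hf.toLp f‖ = Real.sqrt (∫ x, f x ^ 2 ∂ν) := by
    intro f hf
    rw [norm_eq_sqrt_real_inner, key hf hf]
    simp only [sq]
  rw [← key hf hg, ← hn hf, ← hn hg]
  exact abs_real_inner_le_norm _ _

/-- constant in the pointwise bound -/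
noncomputable def kap (R : ℝ) : ℝ := Real.sqrt (2 * Real.pi * (R + R) ^ 2 * R ^ 2 + 16 * Real.pi * (R + R))

lemma Nice.pot_le {R : ℝ} (hR : 0 < R) {u : ℂ → ℝ} (hu : Nice R u) {x : ℂ} (hx : ‖x‖ ≤ R) :
    |pot u x| ≤ kap R * Real.sqrt (∫ y, u y ^ 2) := by
  have h := lk_memLp x hR
  have e : pot u x = ∫ y, (Metric.ball (0 : ℂ) R).indicator (fun y => lk x y) y * u y := by
    unfold pot
    congr 1
    ext y
    exact hu.eq_ind x y
  rw [e]
  refine (cs2 h.1 hu.mem).trans ?_
  apply mul_le_mul_of_nonneg_right _ (Real.sqrt_nonneg _)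
  unfold kap
  apply Real.sqrt_le_sqrt
  refine h.2.trans ?_
  have := norm_nonneg x
  gcongr

variable (A : Set ℂ)

/-- the Hilbert space `L²(A)` -/
noncomputable abbrev LA := Lp ℝ 2 ((volume : Measure ℂ).restrict A)

/-- extension by zero -/
noncomputable def ext (f : LA A) : ℂ → ℝ := A.indicator f

variable {A}

lemma nice_ind {R : ℝ} (hA : MeasurableSet A) (hAR : A ⊆ Metric.ball 0 R) {f : ℂ → ℝ}
    (hf : MemLp f 2 (volume.restrict A)) : Nice R (A.indicator f) := by
  refine ⟨(memLp_indicator_iff_restrict hA).mpr hf, fun x hx => ?_⟩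
  apply indicator_of_notMem
  intro h
  have := hAR h
  rw [Metric.mem_ball, dist_zero_right] at this
  linarith

lemma ext_nice {R : ℝ} (hA : MeasurableSet A) (hAR : A ⊆ Metric.ball 0 R) (f : LA A) :
    Nice R (ext A f) := nice_ind hA hAR (Lp.memLp f)

lemma pot_congr {u v : ℂ → ℝ} (h : u =ᵐ[volume] v) : pot u = pot v := by
  ext x
  unfold pot
  apply integral_congr_ae
  filter_upwards [h] with y hy
  rw [hy]

lemma ext_ae (hA : MeasurableSet A) {f : LA A} {g : ℂ → ℝ} (h : (f : ℂ → ℝ) =ᵐ[volume.restrict A] g) :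
    ext A f =ᵐ[volume] A.indicator g := by
  unfold ext
  rw [Filter.EventuallyEq, ae_restrict_iff' hA] at h
  filter_upwards [h] with x hx
  by_cases hxA : x ∈ A
  · rw [indicator_of_mem hxA, indicator_of_mem hxA, hx hxA]
  · rw [indicator_of_notMem hxA, indicator_of_notMem hxA]

lemma Nice.add {R : ℝ} {u v : ℂ → ℝ} (hu : Nice R u) (hv : Nice R v) : Nice R (fun x => u x + v x) :=
  ⟨hu.mem.add hv.mem, fun x hx => by rw [hu.van x hx, hv.van x hx, add_zero]⟩

lemma Nice.smul {R : ℝ} {u : ℂ → ℝ} (hu : Nice R u) (c : ℝ) : Nice R (fun x => c * u x) :=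
  ⟨hu.mem.const_mul c, fun x hx => by rw [hu.van x hx, mul_zero]⟩

lemma Nice.sub {R : ℝ} {u v : ℂ → ℝ} (hu : Nice R u) (hv : Nice R v) : Nice R (fun x => u x - v x) :=
  ⟨hu.mem.sub hv.mem, fun x hx => by rw [hu.van x hx, hv.van x hx, sub_zero]⟩

lemma Nice.pot_add {R : ℝ} (hR : 0 < R) {u v : ℂ → ℝ} (hu : Nice R u) (hv : Nice R v) (x : ℂ) :
    pot (fun x => u x + v x) x = pot u x + pot v x := by
  unfold pot
  rw [← integral_add (hu.int hR x) (hv.int hR x)]
  congr 1
  ext y
  ring

lemma Nice.pot_sub {R : ℝ} (hR : 0 < R) {u v : ℂ → ℝ} (hu : Nice R u) (hv : Nice R v) (x : ℂ) :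
    pot (fun x => u x - v x) x = pot u x - pot v x := by
  unfold pot
  rw [← integral_sub (hu.int hR x) (hv.int hR x)]
  congr 1
  ext y
  ring

lemma pot_smul (u : ℂ → ℝ) (c : ℝ) (x : ℂ) : pot (fun x => c * u x) x = c * pot u x := by
  unfold pot
  rw [← integral_const_mul]
  congr 1
  ext y
  ring

lemma finite_restrict {R : ℝ} (hAR : A ⊆ Metric.ball 0 R) :
    IsFiniteMeasure ((volume : Measure ℂ).restrict A) :=
  ⟨by rw [Measure.restrict_apply_univ]; exact (measure_mono hAR).trans_lt measure_ball_lt_top⟩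

lemma Nice.pot_memLp {R : ℝ} (hR : 0 < R) (hA : MeasurableSet A) (hAR : A ⊆ Metric.ball 0 R)
    {u : ℂ → ℝ} (hu : Nice R u) : MemLp (pot u) 2 (volume.restrict A) := by
  have := finite_restrict hAR
  refine MemLp.of_bound (hu.continuous hR).aestronglyMeasurable (kap R * Real.sqrt (∫ y, u y ^ 2)) ?_
  filter_upwards [ae_restrict_mem hA] with x hx
  apply hu.pot_le hR
  have := hAR hx
  rw [Metric.mem_ball, dist_zero_right] at this
  exact this.le

lemma ext_sq (hA : MeasurableSet A) (f : LA A) : ∫ y, ext A f y ^ 2 = ‖f‖ ^ 2 := by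
  rw [← real_inner_self_eq_norm_sq, L2.inner_def]
  have e : (fun y => ext A f y ^ 2) = A.indicator (fun y => f y ^ 2) := by
    ext y
    unfold ext
    by_cases hy : y ∈ A
    · rw [indicator_of_mem hy, indicator_of_mem hy]
    · rw [indicator_of_notMem hy, indicator_of_notMem hy]; simp
  rw [e, integral_indicator hA]
  congr 1
  ext y
  simp [sq]

/-- the operator as a linear map -/
noncomputable def opLin {R : ℝ} (hR : 0 < R) (hA : MeasurableSet A) (hAR : A ⊆ Metric.ball 0 R) :
    LA A →ₗ[ℝ] LA A where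
  toFun f := ((ext_nice hA hAR f).pot_memLp hR hA hAR).toLp (pot (ext A f))
  map_add' f g := by
    rw [← MemLp.toLp_add]
    apply MemLp.toLp_congr
    apply Filter.Eventually.of_forall
    intro x
    have h1 : ext A (f + g) =ᵐ[volume] fun x => ext A f x + ext A g x := by
      refine (ext_ae hA (Lp.coeFn_add f g)).trans ?_
      apply Filter.Eventually.of_forall
      intro x
      unfold ext
      by_cases hx : x ∈ A
      · simp [indicator_of_mem hx]
      · simp [indicator_of_notMem hx]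
    rw [pot_congr h1]
    exact (ext_nice hA hAR f).pot_add hR (ext_nice hA hAR g) x
  map_smul' c f := by
    rw [← MemLp.toLp_const_smul]
    apply MemLp.toLp_congr
    apply Filter.Eventually.of_forall
    intro x
    have h1 : ext A (c • f) =ᵐ[volume] fun x => c * ext A f x := by
      refine (ext_ae hA (Lp.coeFn_smul c f)).trans ?_
      apply Filter.Eventually.of_forall
      intro x
      unfold ext
      by_cases hx : x ∈ A
      · simp [indicator_of_mem hx]
      · simp [indicator_of_notMem hx]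
    rw [pot_congr h1]
    exact pot_smul _ c x

/-- the logarithmic potential operator on `L²(A)` -/
noncomputable def op {R : ℝ} (hR : 0 < R) (hA : MeasurableSet A) (hAR : A ⊆ Metric.ball 0 R) :
    LA A →L[ℝ] LA A :=
  (opLin hR hA hAR).mkContinuous (Real.sqrt (volume A).toReal * kap R) (by
    intro f
    have := finite_restrict hAR
    have h1 := Lp.norm_le_of_ae_bound (μ := volume.restrict A) (p := 2) (C := kap R * ‖f‖)
      (f := opLin hR hA hAR f) (by
        have : 0 ≤ kap R := Real.sqrt_nonneg _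
        positivity) (by
        have h2 : (opLin hR hA hAR f : ℂ → ℝ) =ᵐ[volume.restrict A] pot (ext A f) :=
          MemLp.coeFn_toLp ((ext_nice hA hAR f).pot_memLp hR hA hAR)
        filter_upwards [h2, ae_restrict_mem hA] with x hx hxA
        rw [hx]
        have h3 := hAR hxA
        rw [Metric.mem_ball, dist_zero_right] at h3
        have h4 := (ext_nice hA hAR f).pot_le hR h3.le
        rw [ext_sq hA f, Real.sqrt_sq (norm_nonneg _)] at h4
        exact h4)
    refine h1.trans (le_of_eq ?_)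
    rw [measureUnivNNReal, Measure.restrict_apply_univ]
    rw [Real.sqrt_eq_rpow]
    simp only [ENNReal.toReal_ofNat, ENNReal.coe_toNNReal_eq_toReal, one_div]
    ring)

lemma op_ae {R : ℝ} (hR : 0 < R) (hA : MeasurableSet A) (hAR : A ⊆ Metric.ball 0 R) (f : LA A) :
    (op hR hA hAR f : ℂ → ℝ) =ᵐ[volume.restrict A] pot (ext A f) :=
  MemLp.coeFn_toLp ((ext_nice hA hAR f).pot_memLp hR hA hAR)

lemma op_inner {R : ℝ} (hR : 0 < R) (hA : MeasurableSet A) (hAR : A ⊆ Metric.ball 0 R) (f g : LA A) :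
    ⟪op hR hA hAR f, g⟫ = bf (ext A f) (ext A g) := by
  rw [L2.inner_def]
  unfold bf
  have e : (fun x => pot (ext A f) x * ext A g x) = A.indicator (fun x => pot (ext A f) x * g x) := by
    ext x
    by_cases hx : x ∈ A
    · simp [ext, indicator_of_mem hx]
    · simp [ext, indicator_of_notMem hx]
  rw [e, integral_indicator hA]
  apply integral_congr_ae
  filter_upwards [op_ae hR hA hAR f] with x hx
  rw [hx]
  simp [mul_comm]

lemma op_symm {R : ℝ} (hR : 0 < R) (hA : MeasurableSet A) (hAR : A ⊆ Metric.ball 0 R) (f g : LA A) :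
    ⟪op hR hA hAR f, g⟫ = ⟪f, op hR hA hAR g⟫ := by
  rw [real_inner_comm (op hR hA hAR g) f, op_inner, op_inner]
  exact (ext_nice hA hAR f).bf_comm hR (ext_nice hA hAR g)

end Pool.Agent.KS6_23.LP
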