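import Pool.Agent.KS6_23.LP.LP7

set_option autoImplicit false

open MeasureTheory Set
open scoped Topology ENNReal NNReal RealInnerProductSpace

namespace Pool.Agent.KS6_23.LP

/-- an affine half-plane `{x : c < ⟪n, x⟫}` with unit normal `n` -/
structure HP where
  n : ℂ
  hn : ‖n‖ = 1
  c : ℝ

namespace HP

variable (P : HP)

/-- signed distance to the boundary line -/
noncomputable def s (x : ℂ) : ℝ := ⟪P.n, x⟫ - P.c

/-- the half-plane -/
def H : Set ℂ := {x | 0 < P.s x}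

/-- reflection in the boundary line -/
noncomputable def σ (x : ℂ) : ℂ := x - (2 * P.s x) • P.n

lemma nn : ⟪P.n, P.n⟫ = 1 := by rw [real_inner_self_eq_norm_sq, P.hn]; norm_num

lemma s_cont : Continuous P.s := by unfold s; fun_prop

lemma s_σ (x : ℂ) : P.s (P.σ x) = - P.s x := by
  have : ⟪P.n, P.σ x⟫ = ⟪P.n, x⟫ - 2 * P.s x := by
    unfold σ
    rw [inner_sub_right, inner_smul_right, P.nn]; ring
  unfold s at *
  rw [this]; ring

lemma σσ (x : ℂ) : P.σ (P.σ x) = x := by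
  change P.σ x - (2 * P.s (P.σ x)) • P.n = x
  rw [P.s_σ x]
  unfold σ
  module

lemma σ_isom (x y : ℂ) : ‖P.σ x - P.σ y‖ = ‖x - y‖ := by
  have e : P.σ x - P.σ y = (x - y) - (2 * ⟪P.n, x - y⟫) • P.n := by
    unfold σ s
    rw [inner_sub_right]
    module
  rw [e]
  have h : ‖(x - y) - (2 * ⟪P.n, x - y⟫) • P.n‖ ^ 2 = ‖x - y‖ ^ 2 := by
    rw [norm_sub_sq_real, norm_smul, P.hn, inner_smul_right, real_inner_comm, mul_one, Real.norm_eq_abs,
      sq_abs]
    ring
  exact (pow_left_inj₀ (norm_nonneg _) (norm_nonneg _) two_ne_zero).mp h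

lemma σ_eq (x : ℂ) : P.σ x = (Submodule.reflection (ℝ ∙ P.n)ᗮ) x + (2 * P.c) • P.n := by
  rw [Submodule.reflection_orthogonal_apply, Submodule.reflection_singleton_apply, P.hn]
  unfold σ s
  simp only [nsmul_eq_mul]
  simp
  ring

lemma σ_mp : MeasurePreserving P.σ volume volume := by
  have h1 : MeasurePreserving (Submodule.reflection (ℝ ∙ P.n)ᗮ) (volume : Measure ℂ) volume :=
    LinearIsometryEquiv.measurePreserving _
  have h2 : MeasurePreserving (fun x : ℂ => x + (2 * P.c) • P.n) volume volume :=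
    measurePreserving_add_right volume _
  have e : P.σ = (fun x : ℂ => x + (2 * P.c) • P.n) ∘ (Submodule.reflection (ℝ ∙ P.n)ᗮ) := by
    ext1 x
    exact P.σ_eq x
  rw [e]
  exact h2.comp h1

lemma σ_meas : Measurable P.σ := P.σ_mp.measurable

lemma s_ne : ∀ᵐ x : ℂ, P.s x ≠ 0 := by
  rw [ae_iff]
  simp only [not_not]
  have e : {x : ℂ | P.s x = 0} = (fun x : ℂ => x + (-P.c • P.n)) ⁻¹' ((ℝ ∙ P.n)ᗮ : Submodule ℝ ℂ) := by
    ext x
    rw [mem_preimage, SetLike.mem_coe, Submodule.mem_orthogonal_singleton_iff_inner_right,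
      inner_add_right, inner_smul_right, P.nn]
    simp [s, sub_eq_add_neg]
  rw [e, measure_preimage_add_right]
  apply Measure.addHaar_submodule
  intro h
  have h1 : P.n ∈ ((ℝ ∙ P.n)ᗮ : Submodule ℝ ℂ) := by rw [h]; trivial
  rw [Submodule.mem_orthogonal_singleton_iff_inner_right, P.nn] at h1
  exact one_ne_zero h1

lemma H_open : IsOpen P.H := isOpen_lt continuous_const P.s_cont

lemma closure_H : closure P.H ⊆ {x | 0 ≤ P.s x} :=
  closure_minimal (fun x (hx : 0 < P.s x) => hx.le) (isClosed_le continuous_const P.s_cont)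

lemma σ_fix {x : ℂ} (h : P.s x = 0) : P.σ x = x := by unfold σ; rw [h]; simp

/-- polarization -/
def pol (A : Set ℂ) : Set ℂ := ((A ∪ P.σ '' A) ∩ P.H) ∪ ((A ∩ P.σ '' A) \ P.H)

lemma image_eq (A : Set ℂ) : P.σ '' A = P.σ ⁻¹' A := by
  ext x
  constructor
  · rintro ⟨y, hy, rfl⟩
    rw [mem_preimage, P.σσ]; exact hy
  · intro hx
    exact ⟨P.σ x, hx, P.σσ x⟩

lemma mem_pol (A : Set ℂ) (x : ℂ) : x ∈ P.pol A ↔
    ((x ∈ A ∨ P.σ x ∈ A) ∧ 0 < P.s x) ∨ ((x ∈ A ∧ P.σ x ∈ A) ∧ ¬ 0 < P.s x) := by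
  unfold pol H
  rw [P.image_eq]
  rfl

lemma pol_meas {A : Set ℂ} (hA : MeasurableSet A) : MeasurableSet (P.pol A) := by
  unfold pol
  rw [P.image_eq]
  have h1 := P.σ_meas hA
  have h2 := P.H_open.measurableSet
  exact ((hA.union h1).inter h2).union ((hA.inter h1).diff h2)

lemma comp_mp {u : ℂ → ℝ} (hu : MemLp u 2 volume) : MemLp (fun x => u (P.σ x)) 2 volume :=
  hu.comp_measurePreserving P.σ_mp

lemma int_comp (u : ℂ → ℝ) : ∫ x, u (P.σ x) = ∫ x, u x := by
  have he : MeasurableEmbedding P.σ := by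
    have : Function.Involutive P.σ := P.σσ
    let E : ℂ ≃ᵐ ℂ := ⟨this.toPerm, P.σ_meas, P.σ_meas⟩
    exact E.measurableEmbedding
  exact P.σ_mp.integral_comp he u

lemma pot_comp (u : ℂ → ℝ) (x : ℂ) : pot (fun y => u (P.σ y)) x = pot u (P.σ x) := by
  unfold pot
  rw [← P.int_comp (fun y => lk (P.σ x) y * u y)]
  congr 1
  ext y
  congr 1
  unfold lk
  rw [P.σ_isom]

end HP

end Pool.Agent.KS6_23.LP
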